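import Pool.Agent.Mg.S09345.Gd30686

section

set_option autoImplicit false
set_option linter.unusedSectionVars false

namespace Pool.Agent.MP_6c8b06_co

open Finset

theorem crude_down (c : ℕ) : ∀ M, 2 ^ M ≤ c * M + 1 → ∀ j, j + 1 ≤ M →
    2 ^ (j + 1) ≤ c * (j + 1) + 1 := by
  intro M
  induction M with
  | zero => intro _ j hj; omega
  | succ M ih =>
    intro h j hj
    rcases Nat.eq_or_lt_of_le hj with e | e
    · rw [e]; exact h
    · apply ih _ j (by omega)
      have h1 : c ≤ c * M := Nat.le_mul_of_pos_right c (by omega)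
      rw [pow_succ, mul_add] at h
      omega

theorem affine_down (c p : ℕ) (hp : p ≤ 2 * c) : ∀ M, 2 ^ M + p ≤ c * (M + 1) → ∀ j, 2 ≤ j →
    j ≤ M → 2 ^ j + p ≤ c * (j + 1) := by
  intro M
  induction M with
  | zero => intro _ j hj; omega
  | succ M ih =>
    intro h j hj2 hj
    rcases Nat.eq_or_lt_of_le hj with e | e
    · rw [e]; exact h
    · apply ih _ j hj2 (by omega)
      have h1 : c * 2 ≤ c * M := Nat.mul_le_mul_left c (by omega)
      rw [pow_succ, mul_add, mul_add] at h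
      rw [mul_add]
      omega

section Criteria

variable {G : Type} [AddCommGroup G] [Module (ZMod 2) G] [Finite G] [DecidableEq G]

theorem cayDec_crude (n c : ℕ) (S : Finset G) (hS : S.card = c * (n + 1)) (h0 : (0 : G) ∉ S)
    (h : 2 ^ n ≤ c * n + 1) : CayDec (n + 1) S :=
  cayDec_criterion (n + 1) c _ S 0 hS h0 le_rfl
    (fun j hj => Or.inl (crude_down c n h j (by omega)))

theorem cayDec_affine (m c p : ℕ) (S : Finset G) (f : G →ₗ[ZMod 2] ZMod 2)
    (hS : S.card = c * (m + 2)) (h0 : (0 : G) ∉ S)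
    (hp : (S.filter (fun g => ¬ f g = 1)).card ≤ p) (hc : 1 ≤ c) (hc2 : 2 ≤ c ∨ p = 0)
    (hpc : p ≤ 2 * c) (h : 2 ^ m + p ≤ c * (m + 1)) : CayDec (m + 2) S := by
  refine cayDec_criterion (m + 2) c p S f hS h0 hp ?_
  intro j hj
  by_cases h2 : 2 ≤ j
  · exact Or.inr (affine_down c p hpc m h j h2 (by omega))
  · have : j = 0 ∨ j = 1 := by omega
    rcases this with rfl | rfl
    · left; omega
    · omega

theorem card_pair (Q P : Finset G) :
    (Q ×ˢ ({1} : Finset (ZMod 2)) ∪ P ×ˢ {0}).card = Q.card + P.card := by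
  rw [Finset.card_union_of_disjoint]
  · simp
  · rw [Finset.disjoint_left]
    rintro ⟨g, s⟩ h1 h2
    simp only [Finset.mem_product, Finset.mem_singleton] at h1 h2
    have : (1 : ZMod 2) = 0 := h1.2.symm.trans h2.2
    revert this; decide

theorem zero_notMem_pair (Q P : Finset G) (h : (0 : G) ∉ P) :
    (0 : G × ZMod 2) ∉ Q ×ˢ ({1} : Finset (ZMod 2)) ∪ P ×ˢ {0} := by
  simp [h]

theorem add_ne_zero_iff (g g' : G) : g + g' ≠ 0 ↔ g ≠ g' := by
  constructor
  · rintro h rfl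
    exact h (add_self_two g)
  · intro h e
    apply h
    calc g = g + (g' + g') := by rw [add_self_two, add_zero]
      _ = g' := by rw [← add_assoc, e, zero_add]

end Criteria

section Blocks

variable {W : Type} [AddCommGroup W] [Module (ZMod 2) W] [Fintype W] [DecidableEq W]

/-- The complement of the hyperplane `W` in `W × ZMod 2`. -/
def offW (W : Type) [Fintype W] : Finset (W × ZMod 2) := univ ×ˢ {1}

theorem mem_offW (g : W × ZMod 2) : g ∈ offW W ↔ g.2 = 1 := by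
  rw [offW, Finset.mem_product]
  simp

theorem card_offW : (offW W).card = Fintype.card W := by simp [offW]

theorem add_mem_offW (g g' : W × ZMod 2) : g + g' ∈ offW W ↔ g.2 ≠ g'.2 := by
  rw [mem_offW, Prod.snd_add]
  generalize g.2 = a
  generalize g'.2 = b
  revert a b; decide

theorem pair_full (s t : ℕ) (hW : Fintype.card W = 2 ^ (2 * s + 2))
    (ht : 2 ^ (2 * s + 2) = t * (2 * s + 3) + 1) (P : Finset (W × ZMod 2))
    (hP : P.card = 2 * s + 1) (h0 : (0 : W × ZMod 2) ∉ P) :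
    CayDec (2 * s + 3) ((univ : Finset (W × ZMod 2)) ×ˢ ({1} : Finset (ZMod 2)) ∪ P ×ˢ {0}) := by
  refine cayDec_crude (2 * s + 2) (2 * t + 1) _ ?_ (zero_notMem_pair _ _ h0) ?_
  · rw [card_pair, hP, Finset.card_univ, Fintype.card_prod, hW, ZMod.card, ht]
    ring
  · rw [ht]; nlinarith

theorem blockA (s t : ℕ) (hW : Fintype.card W = 2 ^ (2 * s + 2))
    (ht : 2 ^ (2 * s + 2) = t * (2 * s + 3) + 1) (hts : 2 * s + 1 ≤ t) :
    Dec (2 * s + 3) (fun a b : Fin (s + 2) × (W × ZMod 2) => a ≠ b) := by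
  have hR : (univ.erase (0 : W × ZMod 2)).card = 2 * (t * (2 * s + 3)) + 1 := by
    rw [Finset.card_erase_of_mem (Finset.mem_univ _), Finset.card_univ, Fintype.card_prod, hW,
      ZMod.card, ht]
    omega
  obtain ⟨P, hPR, hc, hdisj⟩ := exists_disjoint_family (s + 2) (2 * s + 1)
    (univ.erase (0 : W × ZMod 2)) (by rw [hR]; nlinarith)
  obtain ⟨u, rfl⟩ := Nat.exists_eq_add_of_le hts
  refine (master univ _ P hPR hdisj
    (fun c => pair_full s _ hW ht _ (hc c) (fun h => by simpa using hPR c h)) ?_).congr ?_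
  · intro c
    have h1 := card_sdiff_family _ P hPR hc hdisj c
    rw [hR] at h1
    refine cayDec_crude (2 * s + 2) (3 * s + 2 + 2 * u) _ ?_ (by simp) ?_
    · simp only [show s + 2 - 1 = s + 1 from rfl] at h1
      nlinarith
    · rw [ht]; nlinarith
  · rintro ⟨a, x⟩ ⟨b, y⟩
    simp only [Finset.mem_univ, and_true, Finset.mem_erase, add_ne_zero_iff, ne_eq,
      Prod.mk.injEq]
    have := add_ne_zero_iff x y
    tauto

theorem blockC1 (s t : ℕ) (hW : Fintype.card W = 2 ^ (2 * s + 2))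
    (ht : 2 ^ (2 * s + 2) = t * (2 * s + 3) + 1) (hts : 2 * s + 1 ≤ t) :
    Dec (2 * s + 3) (fun a b : Fin (s + 2) × (W × ZMod 2) => a.1 ≠ b.1 ∨ a.2.2 ≠ b.2.2) := by
  have hR : (offW W).card = t * (2 * s + 3) + 1 := by rw [card_offW, hW, ht]
  have h01 : (0 : ZMod 2) ≠ 1 := by decide
  obtain ⟨P, hPR, hc, hdisj⟩ := exists_disjoint_family (s + 2) (2 * s + 1)
    (offW W) (by rw [hR]; nlinarith)
  obtain ⟨u, rfl⟩ := Nat.exists_eq_add_of_le hts
  refine (master univ _ P hPR hdisj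
    (fun c => pair_full s _ hW ht _ (hc c)
      (fun h => h01 (by simpa [mem_offW] using hPR c h))) ?_).congr ?_
  · intro c
    have h1 := card_sdiff_family _ P hPR hc hdisj c
    rw [hR] at h1
    refine cayDec_affine (2 * s + 1) (s + 1 + u) 0 _ (LinearMap.snd _ _ _) ?_
      (by simp [mem_offW, h01]) ?_ (by omega) (Or.inr rfl) (by omega) ?_
    · simp only [show s + 2 - 1 = s + 1 from rfl] at h1
      nlinarith
    · rw [Nat.le_zero, Finset.card_eq_zero, Finset.filter_eq_empty_iff]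
      intro g hg
      simpa [mem_offW] using (Finset.mem_sdiff.mp hg).1
    · rw [pow_succ] at ht
      nlinarith
  · rintro ⟨a, x⟩ ⟨b, y⟩
    simp only [Finset.mem_univ, and_true, add_mem_offW]
    tauto

theorem blockC2_of (s t : ℕ) (hW : Fintype.card W = 2 ^ (2 * s + 2))
    (ht : 2 ^ (2 * s + 2) = t * (2 * s + 3) + 1) (hts : 2 * s + 1 ≤ t)
    (P : Fin (2 * s + 3) → Finset (W × ZMod 2))
    (hPR : ∀ c, P c ⊆ univ.erase 0) (hc : ∀ c, (P c).card = 2 * s + 2)
    (hdisj : ∀ c c', c ≠ c' → Disjoint (P c) (P c'))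
    (hloop : ∀ c, CayDec (2 * s + 3) (univ.erase 0 \ (univ.erase c).biUnion P)) :
    Dec (2 * s + 3) (fun a b : Fin (2 * s + 3) × (W × ZMod 2) =>
      (a.1 ≠ b.1 ∧ a.2.2 ≠ b.2.2) ∨ (a.1 = b.1 ∧ a.2 ≠ b.2)) := by
  refine (master (offW W) _ P hPR hdisj ?_ hloop).congr ?_
  · intro c
    refine cayDec_affine (2 * s + 1) (t + 1) (2 * s + 2) _ (LinearMap.snd _ _ _) ?_
      (zero_notMem_pair _ _ (fun h => by simpa using hPR c h)) ?_ (by omega) (by omega)
      (by omega) ?_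
    · rw [card_pair, hc, card_offW, hW, ht]
      ring
    · have : ((P c) ×ˢ ({0} : Finset (ZMod 2))).card = 2 * s + 2 := by simp [hc]
      rw [← this]
      apply Finset.card_le_card
      rintro ⟨g, e⟩ hg
      simp only [Finset.mem_filter, Finset.mem_union, Finset.mem_product, Finset.mem_singleton,
        LinearMap.snd_apply] at hg ⊢
      tauto
    · rw [pow_succ] at ht
      nlinarith
  · rintro ⟨a, x⟩ ⟨b, y⟩
    simp only [Finset.mem_univ, and_true, Finset.mem_erase, add_ne_zero_iff, add_mem_offW]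

theorem blockC2_large (s t : ℕ) (hs : 1 ≤ s) (hW : Fintype.card W = 2 ^ (2 * s + 2))
    (ht : 2 ^ (2 * s + 2) = t * (2 * s + 3) + 1) (hts : 2 * s + 1 ≤ t) :
    Dec (2 * s + 3) (fun a b : Fin (2 * s + 3) × (W × ZMod 2) =>
      (a.1 ≠ b.1 ∧ a.2.2 ≠ b.2.2) ∨ (a.1 = b.1 ∧ a.2 ≠ b.2)) := by
  have h01 : (0 : ZMod 2) ≠ 1 := by decide
  have hR : (univ.erase (0 : W × ZMod 2)).card = 2 * (t * (2 * s + 3)) + 1 := by
    rw [Finset.card_erase_of_mem (Finset.mem_univ _), Finset.card_univ, Fintype.card_prod, hW,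
      ZMod.card, ht]
    omega
  have hR2 : (offW W).card = t * (2 * s + 3) + 1 := by rw [card_offW, hW, ht]
  have hsub : offW W ⊆ univ.erase (0 : W × ZMod 2) := by
    intro g hg
    rw [mem_offW] at hg
    simp only [Finset.mem_erase, Finset.mem_univ, and_true]
    rintro rfl
    exact h01 hg
  have hR1 : (univ.erase (0 : W × ZMod 2) \ offW W).card = t * (2 * s + 3) := by
    have := Finset.card_sdiff_add_card_eq_card hsub
    omega
  obtain ⟨P1, hP1, hc1, hd1⟩ := exists_disjoint_family (2 * s + 3) (2 * s + 1)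
    (univ.erase (0 : W × ZMod 2) \ offW W) (by rw [hR1]; nlinarith)
  obtain ⟨P2, hP2, hc2, hd2⟩ := exists_disjoint_family (2 * s + 3) 1
    (offW W) (by rw [hR2]; nlinarith)
  have hd12 : ∀ c c', Disjoint (P1 c) (P2 c') := fun c c' =>
    Finset.disjoint_left.mpr fun g h1 h2 => (Finset.mem_sdiff.mp (hP1 c h1)).2 (hP2 c' h2)
  have hPR : ∀ c, P1 c ∪ P2 c ⊆ univ.erase 0 := fun c =>
    Finset.union_subset ((hP1 c).trans Finset.sdiff_subset) ((hP2 c).trans hsub)
  have hc : ∀ c, (P1 c ∪ P2 c).card = 2 * s + 2 := fun c => by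
    rw [Finset.card_union_of_disjoint (hd12 c c), hc1, hc2]
  have hdisj : ∀ c c', c ≠ c' → Disjoint (P1 c ∪ P2 c) (P1 c' ∪ P2 c') := by
    intro c c' h
    simp only [Finset.disjoint_union_left, Finset.disjoint_union_right]
    exact ⟨⟨hd1 c c' h, (hd12 c' c).symm⟩, hd12 c c', hd2 c c' h⟩
  refine blockC2_of s t hW ht hts (fun c => P1 c ∪ P2 c) hPR hc hdisj ?_
  intro c
  have h1 := card_sdiff_family _ _ hPR hc hdisj c
  have h2 := card_sdiff_family _ _ hP1 hc1 hd1 c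
  rw [hR] at h1
  rw [hR1] at h2
  simp only [show 2 * s + 3 - 1 = 2 * s + 2 from rfl] at h1 h2
  obtain ⟨u, rfl⟩ := Nat.exists_eq_add_of_le hts
  rcases Nat.eq_zero_or_pos u with rfl | hu
  · refine cayDec_affine (2 * s + 1) (2 * s + 1) (2 * s + 1) _ (LinearMap.snd _ _ _) ?_
      (by simp) ?_ (by omega) (by omega) (by omega) ?_
    · nlinarith
    · have h3 : ((univ.erase (0 : W × ZMod 2) \ offW W) \ (univ.erase c).biUnion P1).card =
          2 * s + 1 := by nlinarith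
      rw [← h3]
      apply Finset.card_le_card
      intro g hg
      simp only [Finset.mem_filter, Finset.mem_sdiff, Finset.mem_biUnion, Finset.mem_union,
        LinearMap.snd_apply, mem_offW] at hg ⊢
      refine ⟨⟨hg.1.1, hg.2⟩, ?_⟩
      rintro ⟨a, ha, hga⟩
      exact hg.1.2 ⟨a, ha, Or.inl hga⟩
    · rw [pow_succ] at ht
      nlinarith
  · refine cayDec_crude (2 * s + 2) (2 * s + 1 + 2 * u) _ ?_ (by simp) ?_
    · nlinarith
    · rw [ht]; nlinarith

end Blocks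

theorem blockC2_three :
    Dec 3 (fun a b : Fin 3 × ((ZMod 2 × ZMod 2) × ZMod 2) =>
      (a.1 ≠ b.1 ∧ a.2.2 ≠ b.2.2) ∨ (a.1 = b.1 ∧ a.2 ≠ b.2)) := by
  let P : Fin 3 → Finset ((ZMod 2 × ZMod 2) × ZMod 2) :=
    ![{((1, 0), 0), ((1, 1), 0)}, {((0, 1), 0), ((0, 1), 1)}, {((0, 0), 1), ((1, 0), 1)}]
  refine blockC2_of (W := ZMod 2 × ZMod 2) 0 1 (by decide) (by decide) (by decide) P
    (by decide) (by decide) (by decide) ?_
  intro c
  fin_cases c
  · exact cayDec_affine 1 1 0 _ ((LinearMap.fst _ _ _).comp (LinearMap.fst _ _ _)) (by decide)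
      (by decide) (by decide) (by decide) (by decide) (by decide) (by decide)
  · exact cayDec_affine 1 1 0 _ ((LinearMap.snd _ _ _).comp (LinearMap.fst _ _ _)) (by decide)
      (by decide) (by decide) (by decide) (by decide) (by decide) (by decide)
  · exact cayDec_affine 1 1 0 _ (LinearMap.snd _ _ _) (by decide)
      (by decide) (by decide) (by decide) (by decide) (by decide) (by decide)

end Pool.Agent.MP_6c8b06_co

end

section

set_option autoImplicit false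

namespace Pool.Agent.MP_6c8b06_co

theorem dec_ne_of_card {d : ℕ} {X Y : Type} [Finite X] [Finite Y]
    (h : Dec d (fun u v : X => u ≠ v)) (hc : Nat.card X = Nat.card Y) :
    Dec d (fun u v : Y => u ≠ v) := by
  obtain ⟨e⟩ := Finite.card_eq.mp hc
  exact h.equiv e (fun u v => by simp)

/-- Complete graph on `H ⊕ N` with the edges inside `H` removed. -/
def holeRel {H N : Type} (u v : H ⊕ N) : Prop := u ≠ v ∧ (u.isRight ∨ v.isRight)

theorem hole_of_card {d : ℕ} {H N N' : Type} [Finite N] [Finite N']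
    (h : Dec d (holeRel (H := H) (N := N))) (hc : Nat.card N = Nat.card N') :
    Dec d (holeRel (H := H) (N := N')) := by
  obtain ⟨e⟩ := Finite.card_eq.mp hc
  refine h.equiv (Equiv.sumCongr (Equiv.refl H) e) ?_
  rintro (u | u) (v | v) <;> simp [holeRel]

theorem hole_unit {d : ℕ} {N : Type} (h : Dec d (fun u v : Unit ⊕ N => u ≠ v)) :
    Dec d (holeRel (H := Unit) (N := N)) := by
  refine h.congr ?_
  rintro (u | u) (v | v) <;> simp [holeRel]

theorem hole_of_blocks {d k : ℕ} {W : Type} (hk : 2 * k = d + 1)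
    (h1 : Dec d (fun a b : Fin k × (W × ZMod 2) => a.1 ≠ b.1 ∨ a.2.2 ≠ b.2.2))
    (h2 : Dec d (fun a b : Fin d × (W × ZMod 2) =>
      (a.1 ≠ b.1 ∧ a.2.2 ≠ b.2.2) ∨ (a.1 = b.1 ∧ a.2 ≠ b.2))) :
    Dec d (holeRel (H := W) (N := Fin d × (W × ZMod 2))) := by
  obtain ⟨e⟩ : Nonempty (Fin k × ZMod 2 ≃ Option (Fin d)) :=
    Finite.card_eq.mp (by simp; omega)
  have h3 : Dec d (fun a b : Option (Fin d) × W => a.1 ≠ b.1) := by
    let e' : Fin k × (W × ZMod 2) ≃ Option (Fin d) × W :=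
      { toFun := fun a => (e (a.1, a.2.2), a.2.1)
        invFun := fun b => ((e.symm b.1).1, (b.2, (e.symm b.1).2))
        left_inv := fun a => by simp
        right_inv := fun b => by simp }
    refine h1.equiv e' ?_
    intro u v
    simp only [e', Equiv.coe_fn_mk, ne_eq, EmbeddingLike.apply_eq_iff_eq, Prod.mk.injEq]
    tauto
  let f : ZMod 2 → Option (Fin d) × W → W ⊕ (Fin d × (W × ZMod 2)) := fun s a =>
    match a.1 with
    | none => Sum.inl a.2
    | some i => Sum.inr (i, (a.2, s))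
  have hf : ∀ s, Function.Injective (f s) := by
    rintro s ⟨_ | i, x⟩ ⟨_ | j, y⟩ h <;> simp [f] at h ⊢ <;> tauto
  let S : W ⊕ (Fin d × (W × ZMod 2)) → W ⊕ (Fin d × (W × ZMod 2)) → Prop := fun u v =>
    match u, v with
    | Sum.inl _, Sum.inl _ => False
    | Sum.inr a, Sum.inr b => a.1 ≠ b.1 ∧ a.2.2 = b.2.2
    | _, _ => True
  have h4 : Dec d S := by
    refine Dec.glue (J := ZMod 2) _ S (fun s => h3.map (f s) (hf s)) ?_ ?_
    · rintro s _ _ ⟨⟨_ | i, x⟩, ⟨_ | j, y⟩, h, rfl, rfl⟩ <;> simp [f, S] at h ⊢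
      exact h
    · rintro (x | ⟨i, x, s⟩) (y | ⟨j, y, t⟩) h
      · exact h.elim
      · refine ⟨t, ⟨(none, x), (some j, y), by simp, rfl, rfl⟩, ?_⟩
        rintro t' ⟨⟨_ | i', x'⟩, ⟨_ | j', y'⟩, -, e1, e2⟩ <;> simp [f] at e1 e2
        exact e2.2.2
      · refine ⟨s, ⟨(some i, x), (none, y), by simp, rfl, rfl⟩, ?_⟩
        rintro t' ⟨⟨_ | i', x'⟩, ⟨_ | j', y'⟩, -, e1, e2⟩ <;> simp [f] at e1 e2
        exact e1.2.2
      · simp only [S] at h
        obtain ⟨hij, rfl⟩ := h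
        refine ⟨s, ⟨(some i, x), (some j, y), by simpa using hij, rfl, rfl⟩, ?_⟩
        rintro t' ⟨⟨_ | i', x'⟩, ⟨_ | j', y'⟩, -, e1, e2⟩ <;> simp [f] at e1 e2
        exact e1.2.2
  have h5 := h2.map (Sum.inr : _ → W ⊕ (Fin d × (W × ZMod 2))) Sum.inr_injective
  refine (h4.or h5 ?_).congr ?_
  · rintro _ _ h ⟨a, b, h', rfl, rfl⟩
    simp only [S] at h
    tauto
  · rintro (x | ⟨i, x, s⟩) (y | ⟨j, y, t⟩) <;> simp [S, holeRel]
    tauto

theorem extend_step {d : ℕ} {H I E : Type} [Finite I]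
    (hb : Dec d (fun u v : E × Bool => u.2 ≠ v.2))
    (hh : Dec d (holeRel (H := H) (N := Bool × E)))
    (ho : Dec d (fun u v : H ⊕ (I × E) => u ≠ v)) :
    Dec d (fun u v : H ⊕ ((I ⊕ Bool) × E) => u ≠ v) := by
  let f1 : H ⊕ (I × E) → H ⊕ ((I ⊕ Bool) × E) := Sum.map id (Prod.map Sum.inl id)
  let f2 : H ⊕ (Bool × E) → H ⊕ ((I ⊕ Bool) × E) := Sum.map id (Prod.map Sum.inr id)
  let f3 : I × Bool → E × Bool → H ⊕ ((I ⊕ Bool) × E) := fun p z =>
    Sum.inr (if z.2 then Sum.inr p.2 else Sum.inl p.1, z.1)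
  have hf1 : Function.Injective f1 := by
    rintro (x | ⟨i, x⟩) (y | ⟨j, y⟩) h <;> simp [f1] at h ⊢ <;> exact h
  have hf2 : Function.Injective f2 := by
    rintro (x | ⟨i, x⟩) (y | ⟨j, y⟩) h <;> simp [f2] at h ⊢ <;> exact h
  have hf3 : ∀ p, Function.Injective (f3 p) := by
    rintro p ⟨x, _ | _⟩ ⟨y, _ | _⟩ h <;> simp [f3] at h ⊢ <;> exact h
  let S : H ⊕ ((I ⊕ Bool) × E) → H ⊕ ((I ⊕ Bool) × E) → Prop := fun u v =>
    match u, v with
    | Sum.inr (Sum.inl _, _), Sum.inr (Sum.inr _, _) => True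
    | Sum.inr (Sum.inr _, _), Sum.inr (Sum.inl _, _) => True
    | _, _ => False
  have h3 : Dec d S := by
    refine Dec.glue (J := I × Bool) _ S (fun p => hb.map (f3 p) (hf3 p)) ?_ ?_
    · rintro p _ _ ⟨⟨x, _ | _⟩, ⟨y, _ | _⟩, h, rfl, rfl⟩ <;> simp [f3, S] at h ⊢
    · rintro (x | ⟨i | i, x⟩) (y | ⟨j | j, y⟩) h <;> simp only [S] at h
      · refine ⟨(i, j), ⟨(x, false), (y, true), by simp, rfl, rfl⟩, ?_⟩
        rintro ⟨i', j'⟩ ⟨⟨x', _ | _⟩, ⟨y', _ | _⟩, -, e1, e2⟩ <;> simp [f3] at e1 e2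
        rw [e1.1, e2.1]
      · refine ⟨(j, i), ⟨(x, true), (y, false), by simp, rfl, rfl⟩, ?_⟩
        rintro ⟨i', j'⟩ ⟨⟨x', _ | _⟩, ⟨y', _ | _⟩, -, e1, e2⟩ <;> simp [f3] at e1 e2
        rw [e1.1, e2.1]
  let S1 : H ⊕ ((I ⊕ Bool) × E) → Prop := fun u =>
    match u with
    | Sum.inr (Sum.inr _, _) => False
    | _ => True
  let S2 : H ⊕ ((I ⊕ Bool) × E) → Prop := fun u =>
    match u with
    | Sum.inr (Sum.inl _, _) => False
    | _ => True
  have h1 : Dec d (fun u v => u ≠ v ∧ S1 u ∧ S1 v) := by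
    refine (ho.map f1 hf1).congr ?_
    intro u v
    constructor
    · rintro ⟨x | ⟨i, x⟩, y | ⟨j, y⟩, h, rfl, rfl⟩ <;>
        exact ⟨fun e => h (hf1 e), trivial, trivial⟩
    · rintro ⟨h, h1, h2⟩
      have key : ∀ w, S1 w → ∃ a, f1 a = w := by
        rintro (x | ⟨i | i, x⟩) hw
        · exact ⟨Sum.inl x, rfl⟩
        · exact ⟨Sum.inr (i, x), rfl⟩
        · exact hw.elim
      obtain ⟨a, rfl⟩ := key u h1
      obtain ⟨b, rfl⟩ := key v h2
      exact ⟨a, b, fun e => h (congrArg f1 e), rfl, rfl⟩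
  have h2 : Dec d (fun u v => (u ≠ v ∧ (u.isRight ∨ v.isRight)) ∧ S2 u ∧ S2 v) := by
    refine (hh.map f2 hf2).congr ?_
    intro u v
    constructor
    · rintro ⟨x | ⟨i, x⟩, y | ⟨j, y⟩, h, rfl, rfl⟩ <;>
        exact ⟨⟨fun e => h.1 (hf2 e), h.2⟩, trivial, trivial⟩
    · rintro ⟨h, h1, h2⟩
      have key : ∀ w, S2 w → ∃ a, f2 a = w ∧ a.isRight = w.isRight := by
        rintro (x | ⟨i | i, x⟩) hw
        · exact ⟨Sum.inl x, rfl, rfl⟩
        · exact hw.elim
        · exact ⟨Sum.inr (i, x), rfl, rfl⟩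
      obtain ⟨a, rfl, ha⟩ := key u h1
      obtain ⟨b, rfl, hb⟩ := key v h2
      exact ⟨a, b, ⟨fun e => h.1 (congrArg f2 e), by rw [ha, hb]; exact h.2⟩, rfl, rfl⟩
  refine ((h1.or h2 ?_).or h3 ?_).congr ?_
  · rintro (x | ⟨i | i, x⟩) (y | ⟨j | j, y⟩) <;> simp [S1, S2]
  · rintro (x | ⟨i | i, x⟩) (y | ⟨j | j, y⟩) <;> simp [S1, S2, S]
  · rintro (x | ⟨i | i, x⟩) (y | ⟨j | j, y⟩) <;> simp [S1, S2, S]

theorem extend_iter {d : ℕ} {H E : Type} [Finite H] [Finite E]
    (hb : Dec d (fun u v : E × Bool => u.2 ≠ v.2))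
    (hh : Dec d (holeRel (H := H) (N := Bool × E))) (j : ℕ)
    (ho : Dec d (fun u v : H ⊕ (Fin j × E) => u ≠ v)) (r : ℕ) :
    Dec d (fun u v : H ⊕ (Fin (j + 2 * r) × E) => u ≠ v) := by
  induction r with
  | zero => exact ho
  | succ r ih =>
    refine dec_ne_of_card (extend_step hb hh ih) ?_
    simp [mul_add, add_assoc]

theorem dec_odd_case (n r : ℕ) :
    Dec (n + 1) (fun u v : Fin (1 + r * ((n + 1) * 2 ^ (n + 1))) => u ≠ v) := by
  have : NeZero ((n + 1) * 2 ^ n) := ⟨by positivity⟩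
  have hh : Dec (n + 1) (holeRel (H := Unit) (N := Bool × ZMod ((n + 1) * 2 ^ n))) := by
    refine hole_unit (dec_ne_of_card (dec_complete_odd n) ?_)
    simp [add_comm]
  have ho : Dec (n + 1) (fun u v : Unit ⊕ (Fin 0 × ZMod ((n + 1) * 2 ^ n)) => u ≠ v) := by
    refine (Dec.empty _).congr ?_
    rintro (u | ⟨u, -⟩) (v | ⟨v, -⟩)
    · simp
    · exact v.elim0
    · exact u.elim0
    · exact u.elim0
  refine dec_ne_of_card (extend_iter (dec_bip_base n) hh 0 ho r) ?_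
  simp
  ring

theorem two_mul_le_two_pow (h : ℕ) : 2 * h ≤ 2 ^ h := by
  rcases h with _ | h
  · simp
  · rw [pow_succ]
    have := Nat.lt_two_pow_self (n := h)
    omega

theorem dec_even_case (s : ℕ) (hd : (2 * s + 3) ∣ 2 ^ (2 * s + 2) - 1) (r : ℕ) :
    Dec (2 * s + 3) (fun u v : Fin ((2 * s + 3 + 1) * 2 ^ (2 * s + 2) +
      r * ((2 * s + 3) * 2 ^ (2 * s + 3))) => u ≠ v) := by
  obtain ⟨t, ht0⟩ := hd
  have hpos : 1 ≤ 2 ^ (2 * s + 2) := Nat.one_le_two_pow
  have ht : 2 ^ (2 * s + 2) = t * (2 * s + 3) + 1 := by rw [mul_comm t]; omega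
  have hts : 2 * s + 1 ≤ t := by
    have a1 := two_mul_le_two_pow (s + 1)
    have a2 : 2 ^ (2 * s + 2) = 2 ^ (s + 1) * 2 ^ (s + 1) := by ring
    have a3 := Nat.mul_le_mul a1 a1
    by_contra hlt
    have a4 : t ≤ 2 * s := by omega
    nlinarith
  have : NeZero ((2 * s + 2 + 1) * 2 ^ (2 * s + 2)) := ⟨by positivity⟩
  have key : ∀ (W : Type) [AddCommGroup W] [Module (ZMod 2) W] [Fintype W] [DecidableEq W],
      Fintype.card W = 2 ^ (2 * s + 2) →
      Dec (2 * s + 3) (fun a b : Fin (2 * s + 3) × (W × ZMod 2) =>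
        (a.1 ≠ b.1 ∧ a.2.2 ≠ b.2.2) ∨ (a.1 = b.1 ∧ a.2 ≠ b.2)) →
      Dec (2 * s + 3) (fun u v : Fin ((2 * s + 3 + 1) * 2 ^ (2 * s + 2) +
        r * ((2 * s + 3) * 2 ^ (2 * s + 3))) => u ≠ v) := by
    intro W _ _ _ _ hW h2
    have h1 := hole_of_blocks (by ring) (blockC1 s t hW ht hts) h2
    have hh : Dec (2 * s + 3)
        (holeRel (H := W) (N := Bool × ZMod ((2 * s + 2 + 1) * 2 ^ (2 * s + 2)))) := by
      refine hole_of_card h1 ?_
      simp [hW]
      ring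
    have ho : Dec (2 * s + 3)
        (fun u v : W ⊕ (Fin 1 × ZMod ((2 * s + 2 + 1) * 2 ^ (2 * s + 2))) => u ≠ v) := by
      refine dec_ne_of_card (blockA s t hW ht hts) ?_
      simp [hW]
      ring
    refine dec_ne_of_card (extend_iter (dec_bip_base (2 * s + 2)) hh 1 ho r) ?_
    simp [hW]
    ring
  rcases Nat.eq_zero_or_pos s with rfl | hs
  · exact key (ZMod 2 × ZMod 2) (by decide) blockC2_three
  · exact key (Fin (2 * s + 2) → ZMod 2) (by simp) (blockC2_large s t hs (by simp) ht hts)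

end Pool.Agent.MP_6c8b06_co

end

section

set_option autoImplicit false

namespace Pool.Agent.MP_6c8b06_co

theorem necessary_counts {d m k : ℕ} (hm : 0 < m) (φ : Fin k → Cube d → Fin m)
    (hinj : ∀ i, Function.Injective (φ i))
    (hcov : ∀ u v : Fin m, u ≠ v → ∃! i, Covers (φ i) u v) :
    d ∣ m - 1 ∧ 2 ^ d ∣ m * (m - 1) := by
  let A : Fin m → Finset (Fin k × Cube d) := fun u => Finset.univ.filter (fun p => φ p.1 p.2 = u)
  have hdeg : ∀ u, (A u).card * d = m - 1 := by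
    intro u
    have h1 : (A u ×ˢ (Finset.univ : Finset (Fin d))).card = (Finset.univ.erase u).card := by
      apply Finset.card_bij (fun q _ => φ q.1.1 (flip q.2 q.1.2))
      · rintro ⟨⟨i, x⟩, j⟩ hq
        simp only [A, Finset.mem_product, Finset.mem_filter, Finset.mem_univ, true_and,
          and_true] at hq
        simp only [Finset.mem_erase, Finset.mem_univ, and_true]
        intro h
        exact flip_ne j x (hinj i (h.trans hq.symm))
      · rintro ⟨⟨i, x⟩, j⟩ hq ⟨⟨i', x'⟩, j'⟩ hq' h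
        simp only [A, Finset.mem_product, Finset.mem_filter, Finset.mem_univ, true_and,
          and_true] at hq hq' h
        have hne : u ≠ φ i (flip j x) := fun e => flip_ne j x (hinj i (e.symm.trans hq.symm))
        obtain ⟨l, -, hl⟩ := hcov u _ hne
        have e1 := hl i ((covers_iff _ _ _).mpr ⟨x, j, hq, rfl⟩)
        have e2 := hl i' ((covers_iff _ _ _).mpr ⟨x', j', hq', h.symm⟩)
        obtain rfl : i = i' := e1.trans e2.symm
        obtain rfl : x = x' := hinj i (hq.trans hq'.symm)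
        obtain rfl : j = j' := flip_inj (hinj i h)
        rfl
      · intro v hv
        simp only [Finset.mem_erase, Finset.mem_univ, and_true] at hv
        obtain ⟨i, hi, -⟩ := hcov u v (Ne.symm hv)
        obtain ⟨x, j, e1, e2⟩ := (covers_iff _ _ _).mp hi
        exact ⟨((i, x), j), by simp [A, e1], e2⟩
    simpa using h1
  refine ⟨⟨(A ⟨0, hm⟩).card, by rw [← hdeg ⟨0, hm⟩, mul_comm]⟩, ?_⟩
  have h2 : (Finset.univ : Finset (Fin k × Cube d)).card = ∑ u, (A u).card :=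
    Finset.card_eq_sum_card_fiberwise (f := fun p : Fin k × Cube d => φ p.1 p.2) (fun _ _ => Finset.mem_univ _)
  have h3 : (∑ u, (A u).card) * d = m * (m - 1) := by
    rw [Finset.sum_mul]
    simp [hdeg]
  rw [← h3, ← h2]
  refine ⟨k * d, ?_⟩
  simp
  ring

theorem main_theorem (d : ℕ) (hp : d.Prime) (h2 : 2 < d) (m : ℕ) (hm : 0 < m) :
    (∃ k : ℕ, ∃ φ : Fin k → Cube d → Fin m, (∀ i, Function.Injective (φ i)) ∧
      ∀ u v : Fin m, u ≠ v → ∃! i : Fin k, Covers (φ i) u v) ↔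
    (m ≡ 1 [MOD d * 2 ^ d] ∨ m ≡ (d + 1) * 2 ^ (d - 1) [MOD d * 2 ^ d]) := by
  obtain ⟨s, rfl⟩ : ∃ s, d = 2 * s + 3 := by
    obtain ⟨a, ha⟩ := hp.odd_of_ne_two (by omega)
    exact ⟨a - 1, by omega⟩
  have hcop : Nat.Coprime (2 * s + 3) 2 :=
    (Nat.coprime_primes hp Nat.prime_two).mpr (by omega)
  have hcop' : Nat.Coprime (2 * s + 3) (2 ^ (2 * s + 3)) := hcop.pow_right _
  have hfer : 2 ^ (2 * s + 2) ≡ 1 [MOD (2 * s + 3)] :=
    Nat.ModEq.pow_card_sub_one_eq_one hp hcop.symm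
  have hsub : 2 * s + 3 - 1 = 2 * s + 2 := rfl
  rw [hsub]
  have hpos : 1 ≤ 2 ^ (2 * s + 2) := Nat.one_le_two_pow
  constructor
  · rintro ⟨k, φ, hinj, hcov⟩
    obtain ⟨c1, c2⟩ := necessary_counts hm φ hinj hcov
    have c3 : m ≡ 1 [MOD (2 * s + 3)] := ((Nat.modEq_iff_dvd' hm).mpr c1).symm
    have hmm : Nat.Coprime m (m - 1) := by
      obtain ⟨n, rfl⟩ : ∃ n, m = n + 1 := ⟨m - 1, by omega⟩
      simp
    rcases Nat.even_or_odd m with he | ho
    · right
      have h2m : Nat.Coprime (2 ^ (2 * s + 3)) (m - 1) :=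
        Nat.Coprime.pow_left _ (Nat.Coprime.coprime_dvd_left he.two_dvd hmm)
      have c4 : 2 ^ (2 * s + 3) ∣ m := h2m.dvd_of_dvd_mul_right c2
      rw [← Nat.modEq_and_modEq_iff_modEq_mul hcop']
      constructor
      · refine c3.trans ?_
        have : 2 * s + 3 + 1 ≡ 1 [MOD (2 * s + 3)] := by simp [Nat.ModEq]
        simpa using (this.mul hfer).symm
      · refine ((Nat.modEq_zero_iff_dvd).mpr c4).trans ((Nat.modEq_zero_iff_dvd).mpr ?_).symm
        exact ⟨s + 2, by ring⟩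
    · left
      have h2m : Nat.Coprime (2 ^ (2 * s + 3)) m :=
        Nat.Coprime.pow_left _ ((Nat.coprime_two_left).mpr ho)
      have c4 : 2 ^ (2 * s + 3) ∣ m - 1 := h2m.dvd_of_dvd_mul_left c2
      rw [← Nat.modEq_and_modEq_iff_modEq_mul hcop']
      exact ⟨c3, ((Nat.modEq_iff_dvd' hm).mpr c4).symm⟩
  · intro h
    have hdec : Dec (2 * s + 3) (fun u v : Fin m => u ≠ v) := by
      rcases h with h | h
      · obtain ⟨r, hr⟩ := (Nat.modEq_iff_dvd' hm).mp h.symm
        have e : m = 1 + r * ((2 * s + 2 + 1) * 2 ^ (2 * s + 2 + 1)) := by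
          rw [mul_comm r, ← hr]; omega
        rw [e]
        exact dec_odd_case (2 * s + 2) r
      · have hlt : (2 * s + 3 + 1) * 2 ^ (2 * s + 2) < (2 * s + 3) * 2 ^ (2 * s + 3) := by
          rw [pow_succ 2 (2 * s + 2)]
          nlinarith
        have e : m = (2 * s + 3 + 1) * 2 ^ (2 * s + 2) +
            (m / ((2 * s + 3) * 2 ^ (2 * s + 3))) * ((2 * s + 3) * 2 ^ (2 * s + 3)) := by
          rw [← Nat.mod_eq_of_lt hlt, ← h, Nat.mod_add_div']
        rw [e]
        exact dec_even_case s ((Nat.modEq_iff_dvd' hpos).mp hfer.symm) _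
    obtain ⟨ι, hι, φ, h1, -, h3⟩ := hdec
    obtain ⟨k, ⟨e⟩⟩ := Finite.exists_equiv_fin ι
    refine ⟨k, fun i => φ (e.symm i), fun i => h1 _, ?_⟩
    intro u v huv
    obtain ⟨i, hi, hu⟩ := h3 u v huv
    refine ⟨e i, by simpa using hi, ?_⟩
    intro j hj
    rw [← hu _ hj]
    simp

end Pool.Agent.MP_6c8b06_co

end
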