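import Mathlib

section

set_option autoImplicit false

namespace Pool.Agent.MP_6c8b06_co

/-- Vertex set of the `d`-cube. -/
abbrev Cube (d : ℕ) := Fin d → Bool

/-- `u v` is the image of an edge of the cube under `φ`. -/
def Covers {d : ℕ} {X : Type} (φ : Cube d → X) (u v : X) : Prop :=
  ∃ x y : Cube d, hammingDist x y = 1 ∧ φ x = u ∧ φ y = v

/-- The graph with adjacency relation `R` is an edge-disjoint union of `d`-cubes. -/
def Dec (d : ℕ) {X : Type} (R : X → X → Prop) : Prop :=
  ∃ (ι : Type) (_ : Finite ι) (φ : ι → Cube d → X),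
    (∀ i, Function.Injective (φ i)) ∧ (∀ i u v, Covers (φ i) u v → R u v) ∧
      ∀ u v, R u v → ∃! i, Covers (φ i) u v

/-- Flip one coordinate. -/
def flip {d : ℕ} (i : Fin d) (x : Cube d) : Cube d := Function.update x i (!x i)

theorem flip_apply_self {d : ℕ} (i : Fin d) (x : Cube d) : flip i x i = !x i := by
  simp [flip]

theorem flip_apply_ne {d : ℕ} {i j : Fin d} (h : j ≠ i) (x : Cube d) : flip i x j = x j := by
  simp [flip, h]

theorem flip_flip {d : ℕ} (i : Fin d) (x : Cube d) : flip i (flip i x) = x := by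
  funext j
  by_cases h : j = i
  · subst h; simp [flip]
  · simp [flip, h]

theorem flip_comm {d : ℕ} (i j : Fin d) (x : Cube d) :
    flip i (flip j x) = flip j (flip i x) := by
  funext l
  by_cases hij : i = j
  · subst hij; rfl
  · by_cases h1 : l = i
    · subst h1
      rw [flip_apply_self, flip_apply_ne hij, flip_apply_ne hij, flip_apply_self]
    · by_cases h2 : l = j
      · subst h2
        rw [flip_apply_ne h1, flip_apply_self, flip_apply_self, flip_apply_ne h1]
      · rw [flip_apply_ne h1, flip_apply_ne h2, flip_apply_ne h2, flip_apply_ne h1]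

theorem flip_ne {d : ℕ} (i : Fin d) (x : Cube d) : flip i x ≠ x := by
  intro h
  have := congrFun h i
  rw [flip_apply_self] at this
  cases hx : x i <;> simp [hx] at this

theorem flip_inj {d : ℕ} {i j : Fin d} {x : Cube d} (h : flip i x = flip j x) : i = j := by
  by_contra hij
  have := congrFun h i
  rw [flip_apply_self, flip_apply_ne hij] at this
  cases hx : x i <;> simp [hx] at this

theorem hamming_iff {d : ℕ} (x y : Cube d) : hammingDist x y = 1 ↔ ∃ i, y = flip i x := by
  unfold hammingDist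
  rw [Finset.card_eq_one]
  constructor
  · rintro ⟨i, hi⟩
    refine ⟨i, ?_⟩
    funext j
    have hj : (x j ≠ y j) ↔ j = i := by
      have := Finset.ext_iff.mp hi j
      simpa using this
    by_cases h : j = i
    · subst h
      rw [flip_apply_self]
      have := hj.mpr rfl
      cases hx : x j <;> cases hy : y j <;> simp_all
    · rw [flip_apply_ne h]
      by_contra h'
      exact h (hj.mp (fun e => h' e.symm))
  · rintro ⟨i, rfl⟩
    refine ⟨i, ?_⟩
    ext j
    by_cases h : j = i
    · subst h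
      simp only [flip_apply_self, Finset.mem_filter, Finset.mem_univ, true_and,
        Finset.mem_singleton, iff_true]
      cases x j <;> simp
    · simp [flip_apply_ne h, h]

theorem covers_iff {d : ℕ} {X : Type} (φ : Cube d → X) (u v : X) :
    Covers φ u v ↔ ∃ x i, φ x = u ∧ φ (flip i x) = v := by
  constructor
  · rintro ⟨x, y, h, hu, hv⟩
    obtain ⟨i, rfl⟩ := (hamming_iff x y).mp h
    exact ⟨x, i, hu, hv⟩
  · rintro ⟨x, i, hu, hv⟩
    exact ⟨x, flip i x, (hamming_iff _ _).mpr ⟨i, rfl⟩, hu, hv⟩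

theorem Covers.symm {d : ℕ} {X : Type} {φ : Cube d → X} {u v : X} (h : Covers φ u v) :
    Covers φ v u := by
  obtain ⟨x, y, h, hu, hv⟩ := h
  exact ⟨y, x, by rwa [hammingDist_comm], hv, hu⟩

theorem Dec.congr {d : ℕ} {X : Type} {R S : X → X → Prop} (h : Dec d R)
    (e : ∀ u v, R u v ↔ S u v) : Dec d S := by
  have : R = S := by
    funext u v
    exact propext (e u v)
  exact this ▸ h

theorem Dec.map {d : ℕ} {X Y : Type} {R : X → X → Prop} (h : Dec d R) (f : X → Y)
    (hf : Function.Injective f) :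
    Dec d (fun a b => ∃ u v, R u v ∧ f u = a ∧ f v = b) := by
  obtain ⟨ι, hι, φ, h1, h2, h3⟩ := h
  refine ⟨ι, hι, fun i x => f (φ i x), fun i => hf.comp (h1 i), ?_, ?_⟩
  · rintro i a b ⟨x, y, hxy, rfl, rfl⟩
    exact ⟨_, _, h2 i _ _ ⟨x, y, hxy, rfl, rfl⟩, rfl, rfl⟩
  · rintro a b ⟨u, v, huv, rfl, rfl⟩
    obtain ⟨i, ⟨x, y, hxy, hx, hy⟩, hi⟩ := h3 u v huv
    refine ⟨i, ⟨x, y, hxy, by simp [hx], by simp [hy]⟩, ?_⟩
    rintro j ⟨x', y', hxy', hx', hy'⟩
    exact hi j ⟨x', y', hxy', hf hx', hf hy'⟩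

theorem Dec.equiv {d : ℕ} {X Y : Type} {R : X → X → Prop} {S : Y → Y → Prop} (h : Dec d R)
    (f : X ≃ Y) (e : ∀ u v, R u v ↔ S (f u) (f v)) : Dec d S := by
  refine (h.map f f.injective).congr ?_
  intro a b
  constructor
  · rintro ⟨u, v, huv, rfl, rfl⟩
    exact (e u v).mp huv
  · intro hab
    refine ⟨f.symm a, f.symm b, (e _ _).mpr (by simpa using hab), by simp, by simp⟩

theorem Dec.glue {d : ℕ} {X J : Type} [Finite J] (R : J → X → X → Prop) (S : X → X → Prop)
    (h : ∀ j, Dec d (R j)) (hsub : ∀ j u v, R j u v → S u v)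
    (huniq : ∀ u v, S u v → ∃! j, R j u v) : Dec d S := by
  choose ι hι φ h1 h2 h3 using h
  refine ⟨Σ j, ι j, inferInstance, fun p => φ p.1 p.2, fun p => h1 p.1 p.2, ?_, ?_⟩
  · intro p u v hc
    exact hsub p.1 u v (h2 p.1 p.2 u v hc)
  · intro u v huv
    obtain ⟨j, hj, hju⟩ := huniq u v huv
    obtain ⟨i, hi, hiu⟩ := h3 j u v hj
    refine ⟨⟨j, i⟩, hi, ?_⟩
    rintro ⟨j', i'⟩ hc
    obtain rfl : j' = j := hju j' (h2 j' i' u v hc)
    obtain rfl : i' = i := hiu i' hc
    rfl

theorem Dec.or {d : ℕ} {X : Type} {R S : X → X → Prop} (hR : Dec d R) (hS : Dec d S)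
    (hd : ∀ u v, R u v → S u v → False) : Dec d (fun u v => R u v ∨ S u v) := by
  refine Dec.glue (J := Bool) (fun b => if b then R else S) _ ?_ ?_ ?_
  · intro b
    cases b
    · simpa using hS
    · simpa using hR
  · intro b u v h
    cases b
    · exact Or.inr (by simpa using h)
    · exact Or.inl (by simpa using h)
  · intro u v h
    rcases h with h | h
    · refine ⟨true, by simpa using h, ?_⟩
      intro b hb
      cases b
      · exact (hd u v h (by simpa using hb)).elim
      · rfl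
    · refine ⟨false, by simpa using h, ?_⟩
      intro b hb
      cases b
      · rfl
      · exact (hd u v (by simpa using hb) h).elim

theorem Dec.empty (d : ℕ) {X : Type} : Dec d (fun _ _ : X => False) := by
  refine ⟨Empty, inferInstance, fun i => i.elim, fun i => i.elim, fun i => i.elim, ?_⟩
  intro u v h
  exact h.elim

end Pool.Agent.MP_6c8b06_co

end

section

set_option autoImplicit false

namespace Pool.Agent.MP_6c8b06_co

open Finset

/-- Rado's argument for a monotone submodular function: colours can be discarded one at a time. -/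
theorem rado_reduce {α κ : Type} [DecidableEq α] [DecidableEq κ] [Fintype κ]
    (r : Finset α → ℕ) (mono : ∀ X Y, X ⊆ Y → r X ≤ r Y)
    (submod : ∀ X Y, r (X ∪ Y) + r (X ∩ Y) ≤ r X + r Y) (S : Finset α) :
    ∀ (n : ℕ) (A : α → Finset κ), ∑ s ∈ S, (A s).card = n →
      (∀ J ⊆ S, J.card ≤ ∑ i, r (J.filter (fun s => i ∈ A s))) →
      ∃ B : α → Finset κ, (∀ s ∈ S, (B s).card ≤ 1) ∧
        ∀ J ⊆ S, J.card ≤ ∑ i, r (J.filter (fun s => i ∈ B s)) := by
  intro n
  induction n using Nat.strong_induction_on with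
  | _ n ih =>
  intro A hn hA
  by_cases hall : ∀ s ∈ S, (A s).card ≤ 1
  · exact ⟨A, hall, hA⟩
  push Not at hall
  obtain ⟨s, hs, hcard⟩ := hall
  obtain ⟨x, hx, y, hy, hxy⟩ := Finset.one_lt_card.mp hcard
  have hless : ∀ z ∈ A s, ∑ t ∈ S, (Function.update A s ((A s).erase z) t).card < n := by
    intro z hz
    rw [← hn]
    apply Finset.sum_lt_sum
    · intro t _
      by_cases h : t = s
      · subst h
        rw [Function.update_self]
        exact Finset.card_erase_le
      · rw [Function.update_of_ne h]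
    · refine ⟨s, hs, ?_⟩
      rw [Function.update_self]
      exact Finset.card_erase_lt_of_mem hz
  by_cases h1 : ∀ J ⊆ S, J.card ≤
      ∑ i, r (J.filter (fun t => i ∈ Function.update A s ((A s).erase x) t))
  · exact ih _ (hless x hx) _ rfl h1
  by_cases h2 : ∀ J ⊆ S, J.card ≤
      ∑ i, r (J.filter (fun t => i ∈ Function.update A s ((A s).erase y) t))
  · exact ih _ (hless y hy) _ rfl h2
  exfalso
  push Not at h1 h2
  obtain ⟨J1, hJ1, g1⟩ := h1
  obtain ⟨J2, hJ2, g2⟩ := h2
  have mem : ∀ (z : κ) (J : Finset α), J ⊆ S →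
      ∑ i, r (J.filter (fun t => i ∈ Function.update A s ((A s).erase z) t)) < J.card →
      s ∈ J := by
    intro z J hJ g
    by_contra hsJ
    have := hA J hJ
    have e : ∀ i, J.filter (fun t => i ∈ Function.update A s ((A s).erase z) t) =
        J.filter (fun t => i ∈ A t) := by
      intro i
      apply Finset.filter_congr
      intro t ht
      have hts : t ≠ s := fun h => hsJ (h ▸ ht)
      rw [Function.update_of_ne hts]
    simp only [e] at g
    omega
  have s1 := mem x J1 hJ1 g1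
  have s2 := mem y J2 hJ2 g2
  have a1 := hA (J1 ∪ J2) (Finset.union_subset hJ1 hJ2)
  have a2 := hA ((J1 ∩ J2).erase s)
    ((Finset.erase_subset _ _).trans (Finset.inter_subset_left.trans hJ1))
  have a3 : ((J1 ∩ J2).erase s).card + 1 = (J1 ∩ J2).card :=
    Finset.card_erase_add_one (Finset.mem_inter.mpr ⟨s1, s2⟩)
  have a4 := Finset.card_union_add_card_inter J1 J2
  have a5 : ∑ i, r ((J1 ∪ J2).filter (fun t => i ∈ A t)) +
      ∑ i, r (((J1 ∩ J2).erase s).filter (fun t => i ∈ A t)) ≤
      ∑ i, r (J1.filter (fun t => i ∈ Function.update A s ((A s).erase x) t)) +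
      ∑ i, r (J2.filter (fun t => i ∈ Function.update A s ((A s).erase y) t)) := by
    rw [← Finset.sum_add_distrib, ← Finset.sum_add_distrib]
    apply Finset.sum_le_sum
    intro i _
    refine le_trans (add_le_add (mono _ _ ?_) (mono _ _ ?_)) (submod _ _)
    · intro t ht
      simp only [Finset.mem_filter, Finset.mem_union] at ht ⊢
      by_cases h : t = s
      · subst h
        simp only [Function.update_self, Finset.mem_erase]
        by_cases hi : i = x
        · exact Or.inr ⟨s2, by rw [hi]; exact hxy, ht.2⟩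
        · exact Or.inl ⟨s1, hi, ht.2⟩
      · simp only [Function.update_of_ne h]
        tauto
    · intro t ht
      simp only [Finset.mem_filter, Finset.mem_inter, Finset.mem_erase] at ht ⊢
      simp only [Function.update_of_ne ht.1.1]
      tauto
  omega

variable {G : Type} [AddCommGroup G] [Module (ZMod 2) G]

/-- Rank of a finite set of vectors. -/
noncomputable def rk (X : Finset G) : ℕ :=
  Module.finrank (ZMod 2) (Submodule.span (ZMod 2) (X : Set G))

theorem rk_mono {X Y : Finset G} (h : X ⊆ Y) : rk X ≤ rk Y :=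
  Submodule.finrank_mono (Submodule.span_mono (Finset.coe_subset.mpr h))

theorem rk_submod [DecidableEq G] (X Y : Finset G) : rk (X ∪ Y) + rk (X ∩ Y) ≤ rk X + rk Y := by
  unfold rk
  rw [← Submodule.finrank_sup_add_finrank_inf_eq (Submodule.span (ZMod 2) (X : Set G)),
    Finset.coe_union, Submodule.span_union]
  apply Nat.add_le_add_left
  apply Submodule.finrank_mono
  rw [Finset.coe_inter]
  exact le_inf (Submodule.span_mono Set.inter_subset_left)
    (Submodule.span_mono Set.inter_subset_right)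

theorem rk_le_card (X : Finset G) : rk X ≤ X.card := finrank_span_finset_le_card X

/-- Rado-Horn theorem for the truncation at rank `d`. -/
theorem rado_horn [DecidableEq G] (d c : ℕ) (S : Finset G) (hS : S.card = c * d)
    (h : ∀ J ⊆ S, rk J < d → J.card ≤ c * rk J) :
    ∃ T : Fin c → Finset G, (∀ i, T i ⊆ S ∧ (T i).card = d ∧ rk (T i) = d) ∧
      ∀ s ∈ S, ∃! i, s ∈ T i := by
  obtain ⟨B, hB1, hB2⟩ := rado_reduce (κ := Fin c) (fun X : Finset G => min d (rk X))
    (fun X Y hXY => min_le_min_left d (rk_mono hXY))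
    (fun X Y => by
      have a1 := rk_submod X Y
      have a2 : rk X ≤ rk (X ∪ Y) := rk_mono Finset.subset_union_left
      have a3 : rk Y ≤ rk (X ∪ Y) := rk_mono Finset.subset_union_right
      have a4 : rk (X ∩ Y) ≤ rk X := rk_mono Finset.inter_subset_left
      have a5 : rk (X ∩ Y) ≤ rk Y := rk_mono Finset.inter_subset_right
      omega) S _ (fun _ => Finset.univ) rfl (by
      intro J hJ
      simp only [Finset.mem_univ, Finset.filter_true, Finset.sum_const, Finset.card_univ,
        Fintype.card_fin, smul_eq_mul]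
      by_cases hd : rk J < d
      · rw [min_eq_right hd.le]; exact h J hJ hd
      · rw [min_eq_left (not_lt.mp hd), ← hS]; exact Finset.card_le_card hJ)
  let T : Fin c → Finset G := fun i => S.filter (fun s => i ∈ B s)
  have hsum : ∑ i, (T i).card ≤ c * d := by
    rw [← hS]
    calc ∑ i, (T i).card = ∑ i : Fin c, ∑ s ∈ S, if i ∈ B s then 1 else 0 := by
          simp only [T, Finset.card_filter]
      _ = ∑ s ∈ S, ∑ i : Fin c, if i ∈ B s then 1 else 0 := Finset.sum_comm
      _ = ∑ s ∈ S, (B s).card := by simp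
      _ ≤ ∑ s ∈ S, 1 := Finset.sum_le_sum hB1
      _ = S.card := by simp
  have h1 : ∑ _i : Fin c, d ≤ ∑ i, min d (rk (T i)) := by
    have := hB2 S (Finset.Subset.refl _)
    simpa [hS] using this
  have h2 : ∀ i, min d (rk (T i)) = d := by
    intro i
    exact (Finset.sum_eq_sum_iff_of_le (fun j _ => min_le_left d (rk (T j)))).mp
      (le_antisymm (Finset.sum_le_sum fun j _ => min_le_left _ _) h1) i (Finset.mem_univ i)
  have h3 : ∀ i, d ≤ (T i).card := by
    intro i
    have := h2 i
    have := rk_le_card (T i)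
    omega
  have h4 : ∀ i, d = (T i).card := by
    intro i
    exact (Finset.sum_eq_sum_iff_of_le (fun j _ => h3 j)).mp
      (le_antisymm (Finset.sum_le_sum fun j _ => h3 j) (by simpa using hsum)) i (Finset.mem_univ i)
  refine ⟨T, fun i => ⟨Finset.filter_subset _ _, (h4 i).symm, ?_⟩, ?_⟩
  · have := h2 i
    have := rk_le_card (T i)
    have := h4 i
    omega
  · intro s hs
    have hne : (B s).Nonempty := by
      by_contra hne
      rw [Finset.not_nonempty_iff_eq_empty] at hne
      have := hB2 {s} (Finset.singleton_subset_iff.mpr hs)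
      have e : ∀ i : Fin c, ({s} : Finset G).filter (fun t => i ∈ B t) = ∅ := by
        intro i
        rw [Finset.filter_singleton, hne]
        simp
      have e0 : rk (∅ : Finset G) = 0 := Nat.le_zero.mp (by simpa using rk_le_card (∅ : Finset G))
      simp only [e, e0] at this
      simp at this
    obtain ⟨i, hi⟩ := hne
    refine ⟨i, Finset.mem_filter.mpr ⟨hs, hi⟩, ?_⟩
    intro j hj
    exact Finset.card_le_one.mp (hB1 s hs) j (Finset.mem_filter.mp hj).2 i hi

end Pool.Agent.MP_6c8b06_co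

end

section

set_option autoImplicit false

namespace Pool.Agent.MP_6c8b06_co

open Finset

variable {G : Type} [AddCommGroup G] [Module (ZMod 2) G]

theorem zmod_two_cases (a : ZMod 2) : a = 0 ∨ a = 1 := by
  revert a; decide

include G in
theorem add_self_two (g : G) : g + g = 0 := by
  have h : (1 + 1 : ZMod 2) = 0 := by decide
  calc g + g = (1 + 1 : ZMod 2) • g := by rw [add_smul, one_smul]
    _ = 0 := by rw [h, zero_smul]

theorem dec_cayley_basis [Finite G] {d : ℕ} (B : Fin d → G)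
    (hB : LinearIndependent (ZMod 2) B) : Dec d (fun u v : G => ∃ i, u + v = B i) := by
  let U : Submodule (ZMod 2) G := Submodule.span (ZMod 2) (Set.range B)
  let co : Bool → ZMod 2 := fun b => if b then 1 else 0
  let σ : Cube d → G := fun x => ∑ i, co (x i) • B i
  have hσU : ∀ x, σ x ∈ U := fun x =>
    Submodule.sum_mem _ fun i _ => Submodule.smul_mem _ _ (Submodule.subset_span ⟨i, rfl⟩)
  have hσinj : Function.Injective σ := by
    intro x y hxy
    have h1 : ∑ i, (co (x i) - co (y i)) • B i = 0 := by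
      simp only [sub_smul, Finset.sum_sub_distrib]
      exact sub_eq_zero.mpr hxy
    have h2 := Fintype.linearIndependent_iff.mp hB _ h1
    funext i
    have h3 := h2 i
    revert h3
    cases x i <;> cases y i <;> simp [co]
  have hσflip : ∀ i x, σ (flip i x) = σ x + B i := by
    intro i x
    simp only [σ]
    rw [← Finset.add_sum_erase _ _ (Finset.mem_univ i),
      ← Finset.add_sum_erase _ (fun j => co (x j) • B j) (Finset.mem_univ i)]
    have e : ∑ j ∈ univ.erase i, co (flip i x j) • B j = ∑ j ∈ univ.erase i, co (x j) • B j := by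
      apply Finset.sum_congr rfl
      intro j hj
      rw [flip_apply_ne (Finset.ne_of_mem_erase hj)]
    rw [e, flip_apply_self]
    cases x i
    · simp [co, add_comm]
    · simp only [co, Bool.not_true, Bool.false_eq_true, if_false, zero_smul, zero_add, if_true,
        one_smul]
      rw [add_right_comm, add_self_two, zero_add]
  have hσsurj : ∀ g ∈ U, ∃ x, σ x = g := by
    intro g hg
    obtain ⟨c, hc⟩ := (Submodule.mem_span_range_iff_exists_fun (ZMod 2)).mp hg
    refine ⟨fun i => decide (c i = 1), ?_⟩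
    rw [← hc]
    apply Finset.sum_congr rfl
    intro i _
    rcases zmod_two_cases (c i) with h | h <;> simp [co, h]
  let φ : (G ⧸ U) → Cube d → G := fun q x => q.out + σ x
  have hq : ∀ q x, (Submodule.Quotient.mk (φ q x) : G ⧸ U) = q := by
    intro q x
    simp only [φ, Submodule.Quotient.mk_add]
    rw [(Submodule.Quotient.mk_eq_zero U).mpr (hσU x), add_zero]
    exact Quotient.out_eq q
  refine ⟨G ⧸ U, Quotient.finite _, φ, fun q x y h => hσinj (add_left_cancel h), ?_, ?_⟩
  · intro q u v hc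
    obtain ⟨x, i, rfl, rfl⟩ := (covers_iff _ _ _).mp hc
    refine ⟨i, ?_⟩
    simp only [φ, hσflip]
    rw [← add_assoc, ← add_assoc, add_assoc (q.out + σ x), add_self_two, zero_add]
  · rintro u v ⟨i, hi⟩
    let q : G ⧸ U := Submodule.Quotient.mk u
    have hu : u - q.out ∈ U := by
      rw [← Submodule.Quotient.eq]
      exact (Quotient.out_eq q).symm
    obtain ⟨x, hx⟩ := hσsurj _ hu
    have e1 : φ q x = u := by simp [φ, hx]
    refine ⟨q, (covers_iff _ _ _).mpr ⟨x, i, e1, ?_⟩, ?_⟩
    · have : φ q (flip i x) = φ q x + B i := by simp only [φ, hσflip, add_assoc]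
      rw [this, e1, ← hi, ← add_assoc, add_self_two, zero_add]
    · intro q' hc
      obtain ⟨x', i', e2, -⟩ := (covers_iff _ _ _).mp hc
      rw [← hq q' x', e2]

/-- The Cayley graph with connection set `S` decomposes into `d`-cubes. -/
def CayDec (d : ℕ) (S : Finset G) : Prop := Dec d (fun u v : G => u + v ∈ S)

theorem cayDec_of_rank [Finite G] {d : ℕ} (T : Finset G) (hc : T.card = d) (hr : rk T = d) :
    CayDec d T := by
  have hli : LinearIndependent (ZMod 2) (fun t : T => (t : G)) := by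
    rw [linearIndependent_iff_card_eq_finrank_span]
    simp only [Fintype.card_coe, Subtype.range_coe_subtype, Finset.setOfPred_mem]
    rw [hc, ← hr]
    rfl
  let e : Fin d ≃ T := (Finset.equivFinOfCardEq hc).symm
  have h := dec_cayley_basis (fun i => (e i : G)) (hli.comp e e.injective)
  refine h.congr ?_
  intro u v
  constructor
  · rintro ⟨i, hi⟩
    rw [hi]
    exact (e i).2
  · intro huv
    exact ⟨e.symm ⟨u + v, huv⟩, by simp⟩

theorem cayDec_of_rado [Finite G] [DecidableEq G] (d c : ℕ) (S : Finset G) (hS : S.card = c * d)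
    (h : ∀ J ⊆ S, rk J < d → J.card ≤ c * rk J) : CayDec d S := by
  obtain ⟨T, h1, h2⟩ := rado_horn d c S hS h
  exact Dec.glue (fun i u v => u + v ∈ T i) _
    (fun i => cayDec_of_rank (T i) (h1 i).2.1 (h1 i).2.2)
    (fun i u v huv => (h1 i).1 huv) (fun u v huv => h2 _ huv)

theorem card_le_of_subset_span [Finite G] (J A : Finset G)
    (hA : ∀ a ∈ A, a ∈ Submodule.span (ZMod 2) (J : Set G)) : A.card ≤ 2 ^ rk J := by
  have h1 : Nat.card (Submodule.span (ZMod 2) (J : Set G)) = 2 ^ rk J := by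
    rw [Module.natCard_eq_pow_finrank (K := ZMod 2)]
    simp [rk]
  rw [← h1, ← Nat.card_eq_finsetCard]
  exact Nat.card_le_card_of_injective (fun a : A => (⟨a.1, hA a.1 a.2⟩ :
    Submodule.span (ZMod 2) (J : Set G))) (fun a b h => Subtype.ext (by simpa using h))

theorem card_crude [Finite G] [DecidableEq G] (J : Finset G) (h0 : (0 : G) ∉ J) :
    J.card + 1 ≤ 2 ^ rk J := by
  rw [← Finset.card_insert_of_notMem h0]
  apply card_le_of_subset_span
  intro a ha
  rcases Finset.mem_insert.mp ha with rfl | ha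
  · exact Submodule.zero_mem _
  · exact Submodule.subset_span ha

theorem card_affine [Finite G] [DecidableEq G] (J : Finset G) (f : G →ₗ[ZMod 2] ZMod 2) :
    2 * (J.filter (fun g => f g = 1)).card ≤ 2 ^ rk J := by
  set A := J.filter (fun g => f g = 1) with hA
  rcases A.eq_empty_or_nonempty with h | ⟨a, ha⟩
  · simp [h]
  have ha' := Finset.mem_filter.mp ha
  have hdisj : Disjoint A (A.image (· + a)) := by
    rw [Finset.disjoint_left]
    intro b hb hb'
    obtain ⟨c, hc, rfl⟩ := Finset.mem_image.mp hb'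
    have e1 := (Finset.mem_filter.mp hb).2
    rw [map_add, (Finset.mem_filter.mp hc).2, ha'.2] at e1
    revert e1; decide
  have hcard : (A ∪ A.image (· + a)).card = 2 * A.card := by
    rw [Finset.card_union_of_disjoint hdisj,
      Finset.card_image_of_injective _ (add_left_injective a)]
    ring
  rw [← hcard]
  apply card_le_of_subset_span
  intro b hb
  rcases Finset.mem_union.mp hb with hb | hb
  · exact Submodule.subset_span (Finset.mem_filter.mp hb).1
  · obtain ⟨c, hc, rfl⟩ := Finset.mem_image.mp hb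
    exact Submodule.add_mem _ (Submodule.subset_span (Finset.mem_filter.mp hc).1)
      (Submodule.subset_span ha'.1)

/-- Numerical criterion for a Cayley graph to decompose into `d`-cubes. -/
theorem cayDec_criterion [Finite G] [DecidableEq G] (d c p : ℕ) (S : Finset G)
    (f : G →ₗ[ZMod 2] ZMod 2) (hS : S.card = c * d) (h0 : (0 : G) ∉ S)
    (hp : (S.filter (fun g => ¬ f g = 1)).card ≤ p)
    (h : ∀ j, j + 1 < d → 2 ^ (j + 1) ≤ c * (j + 1) + 1 ∨ 2 ^ j + p ≤ c * (j + 1)) :
    CayDec d S := by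
  apply cayDec_of_rado d c S hS
  intro J hJ hr
  have a1 := card_crude J (fun h => h0 (hJ h))
  have a2 := card_affine J f
  have a3 := Finset.card_filter_add_card_filter_not (s := J) (fun g => f g = 1)
  have a4 : (J.filter (fun g => ¬ f g = 1)).card ≤ p :=
    le_trans (Finset.card_le_card (Finset.filter_subset_filter _ hJ)) hp
  rcases hj : rk J with _ | j
  · rw [hj] at a1
    omega
  · rw [hj] at a1 a2 hr
    rcases h j hr with h | h
    · omega
    · rw [pow_succ] at a2
      omega

end Pool.Agent.MP_6c8b06_co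

end

section

set_option autoImplicit false

namespace Pool.Agent.MP_6c8b06_co

open Finset

variable {G : Type} [AddCommGroup G] [DecidableEq G]

theorem dec_pair {d : ℕ} {I : Type} (i j : I) (hij : i ≠ j) (Q P : Finset G)
    (h : CayDec d (Q ×ˢ ({1} : Finset (ZMod 2)) ∪ P ×ˢ {0})) :
    Dec d (fun a b : I × G =>
      (((a.1 = i ∧ b.1 = j) ∨ (a.1 = j ∧ b.1 = i)) ∧ a.2 + b.2 ∈ Q) ∨
        ((a.1 = b.1 ∧ (a.1 = i ∨ a.1 = j)) ∧ a.2 + b.2 ∈ P)) := by
  have h01 : (0 : ZMod 2) ≠ 1 := by decide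
  have h11 : (1 + 1 : ZMod 2) = 0 := by decide
  let f : G × ZMod 2 → I × G := fun z => (if z.2 = 0 then i else j, z.1)
  have hf : Function.Injective f := by
    rintro ⟨g, s⟩ ⟨g', t⟩ e
    simp only [f, Prod.mk.injEq] at e ⊢
    refine ⟨e.2, ?_⟩
    have e1 := e.1
    rcases zmod_two_cases s with rfl | rfl <;> rcases zmod_two_cases t with rfl | rfl <;>
      simp [h01.symm, hij, hij.symm] at e1 ⊢
  refine (Dec.map h f hf).congr ?_
  rintro ⟨a, x⟩ ⟨b, y⟩
  constructor
  · rintro ⟨⟨g, s⟩, ⟨g', t⟩, hm, e1, e2⟩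
    simp only [f, Prod.mk.injEq] at e1 e2
    obtain ⟨rfl, rfl⟩ := e1
    obtain ⟨rfl, rfl⟩ := e2
    rcases zmod_two_cases s with rfl | rfl <;> rcases zmod_two_cases t with rfl | rfl <;>
      simp [h01, h01.symm, h11, hij, hij.symm] at hm ⊢ <;> exact hm
  · rintro (⟨⟨rfl, rfl⟩ | ⟨rfl, rfl⟩, hm⟩ | ⟨⟨e, rfl | rfl⟩, hm⟩)
    · exact ⟨(x, 0), (y, 1), by simpa [h01.symm] using hm, by simp [f], by simp [f, h01.symm]⟩
    · exact ⟨(x, 1), (y, 0), by simpa [h01.symm] using hm, by simp [f, h01.symm], by simp [f]⟩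
    · simp only at e
      subst e
      exact ⟨(x, 0), (y, 0), by simpa [h01] using hm, by simp [f], by simp [f]⟩
    · simp only at e
      subst e
      exact ⟨(x, 1), (y, 1), by simpa [h01, h11] using hm, by simp [f, h01.symm],
        by simp [f, h01.symm]⟩

omit [DecidableEq G] in
theorem dec_loop {d : ℕ} {I : Type} (i : I) (S : Finset G) (h : CayDec d S) :
    Dec d (fun a b : I × G => a.1 = i ∧ b.1 = i ∧ a.2 + b.2 ∈ S) := by
  refine (Dec.map h (fun g => (i, g)) (fun g g' e => congrArg Prod.snd e)).congr ?_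
  rintro ⟨a, x⟩ ⟨b, y⟩
  constructor
  · rintro ⟨g, g', hm, e1, e2⟩
    simp only [Prod.mk.injEq] at e1 e2
    obtain ⟨rfl, rfl⟩ := e1
    obtain ⟨rfl, rfl⟩ := e2
    exact ⟨rfl, rfl, hm⟩
  · rintro ⟨rfl, rfl, hm⟩
    exact ⟨x, y, hm, rfl, rfl⟩

theorem master {d k : ℕ} [NeZero k] (Q R : Finset G) (P : Fin k → Finset G)
    (hPR : ∀ c, P c ⊆ R) (hdisj : ∀ c c', c ≠ c' → Disjoint (P c) (P c'))
    (hpair : ∀ c, CayDec d (Q ×ˢ ({1} : Finset (ZMod 2)) ∪ P c ×ˢ {0}))
    (hloop : ∀ c, CayDec d (R \ (univ.erase c).biUnion P)) :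
    Dec d (fun a b : Fin k × G =>
      (a.1 ≠ b.1 ∧ a.2 + b.2 ∈ Q) ∨ (a.1 = b.1 ∧ a.2 + b.2 ∈ R)) := by
  have h1 : Dec d (fun a b : Fin k × G => (a.1 ≠ b.1 ∧ a.2 + b.2 ∈ Q) ∨
      (a.1 = b.1 ∧ a.2 + b.2 ∈ (univ.erase (a.1 + a.1)).biUnion P)) := by
    refine Dec.glue (J := {p : Fin k × Fin k // p.1 < p.2}) _ _
      (fun p => dec_pair p.1.1 p.1.2 p.2.ne Q (P (p.1.1 + p.1.2)) (hpair _)) ?_ ?_
    · rintro ⟨⟨i, j⟩, hij⟩ ⟨a, x⟩ ⟨b, y⟩
      simp only at hij ⊢
      rintro (⟨⟨rfl, rfl⟩ | ⟨rfl, rfl⟩, hm⟩ | ⟨⟨e, rfl | rfl⟩, hm⟩)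
      · exact Or.inl ⟨hij.ne, hm⟩
      · exact Or.inl ⟨hij.ne', hm⟩
      · refine Or.inr ⟨e, Finset.mem_biUnion.mpr ⟨_, ?_, hm⟩⟩
        simp [hij.ne']
      · refine Or.inr ⟨e, Finset.mem_biUnion.mpr ⟨_, ?_, hm⟩⟩
        simp [hij.ne]
    · rintro ⟨a, x⟩ ⟨b, y⟩
      simp only
      rintro (⟨hab, hm⟩ | ⟨rfl, hm⟩)
      · rcases lt_or_gt_of_ne hab with h | h
        · refine ⟨⟨(a, b), h⟩, Or.inl ⟨Or.inl ⟨rfl, rfl⟩, hm⟩, ?_⟩
          rintro ⟨⟨i, j⟩, hij⟩ (⟨⟨rfl, rfl⟩ | ⟨rfl, rfl⟩, -⟩ | ⟨⟨e, -⟩, -⟩)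
          · rfl
          · exact absurd hij (not_lt.mpr h.le)
          · exact absurd e hab
        · refine ⟨⟨(b, a), h⟩, Or.inl ⟨Or.inr ⟨rfl, rfl⟩, hm⟩, ?_⟩
          rintro ⟨⟨i, j⟩, hij⟩ (⟨⟨rfl, rfl⟩ | ⟨rfl, rfl⟩, -⟩ | ⟨⟨e, -⟩, -⟩)
          · exact absurd hij (not_lt.mpr h.le)
          · rfl
          · exact absurd e hab
      · obtain ⟨c, hc, hm⟩ := Finset.mem_biUnion.mp hm
        have hc' : c ≠ a + a := Finset.ne_of_mem_erase hc
        have hba : c - a ≠ a := fun e => hc' (sub_eq_iff_eq_add.mp e)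
        have huniq : ∀ c', x + y ∈ P c' → c' = c := by
          intro c' h'
          by_contra hne
          exact Finset.disjoint_left.mp (hdisj c' c hne) h' hm
        rcases lt_or_gt_of_ne hba with h | h
        · refine ⟨⟨(c - a, a), h⟩, Or.inr ⟨⟨rfl, Or.inr rfl⟩, by simpa using hm⟩, ?_⟩
          rintro ⟨⟨i, j⟩, hij⟩ (⟨⟨rfl, rfl⟩ | ⟨rfl, rfl⟩, -⟩ | ⟨⟨-, rfl | rfl⟩, h'⟩)
          · exact absurd hij (lt_irrefl _)
          · exact absurd hij (lt_irrefl _)
          · have := huniq _ h'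
            simp only at this hij
            have e : j = c - a := by rw [← this]; simp
            exact absurd hij (not_lt.mpr (e ▸ h.le))
          · have := huniq _ h'
            simp only at this hij
            have e : i = c - a := by rw [← this]; simp
            subst e
            rfl
        · refine ⟨⟨(a, c - a), h⟩, Or.inr ⟨⟨rfl, Or.inl rfl⟩, by simpa using hm⟩, ?_⟩
          rintro ⟨⟨i, j⟩, hij⟩ (⟨⟨rfl, rfl⟩ | ⟨rfl, rfl⟩, -⟩ | ⟨⟨-, rfl | rfl⟩, h'⟩)
          · exact absurd hij (lt_irrefl _)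
          · exact absurd hij (lt_irrefl _)
          · have := huniq _ h'
            simp only at this hij
            have e : j = c - a := by rw [← this]; simp
            subst e
            rfl
          · have := huniq _ h'
            simp only at this hij
            have e : i = c - a := by rw [← this]; simp
            exact absurd hij (not_lt.mpr (e ▸ h.le))
  have h2 : Dec d (fun a b : Fin k × G =>
      a.1 = b.1 ∧ a.2 + b.2 ∈ R \ (univ.erase (a.1 + a.1)).biUnion P) := by
    refine Dec.glue (J := Fin k) _ _ (fun i => dec_loop i _ (hloop (i + i))) ?_ ?_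
    · rintro i ⟨a, x⟩ ⟨b, y⟩ ⟨rfl, rfl, hm⟩
      exact ⟨rfl, hm⟩
    · rintro ⟨a, x⟩ ⟨b, y⟩ ⟨e, hm⟩
      simp only at e
      subst e
      refine ⟨a, ⟨rfl, rfl, hm⟩, ?_⟩
      rintro i ⟨e, -⟩
      exact e.symm
  refine (h1.or h2 ?_).congr ?_
  · rintro a b (⟨h, -⟩ | ⟨-, h⟩) ⟨e, h'⟩
    · exact h e
    · exact (Finset.mem_sdiff.mp h').2 h
  · intro a b
    constructor
    · rintro ((h | ⟨e, h⟩) | ⟨e, h⟩)
      · exact Or.inl h
      · obtain ⟨c, -, hm⟩ := Finset.mem_biUnion.mp h
        exact Or.inr ⟨e, hPR c hm⟩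
      · exact Or.inr ⟨e, (Finset.mem_sdiff.mp h).1⟩
    · rintro (h | ⟨e, h⟩)
      · exact Or.inl (Or.inl h)
      · by_cases h' : a.2 + b.2 ∈ (univ.erase (a.1 + a.1)).biUnion P
        · exact Or.inl (Or.inr ⟨e, h'⟩)
        · exact Or.inr ⟨e, Finset.mem_sdiff.mpr ⟨h, h'⟩⟩

/-- Pairwise disjoint subsets of a prescribed size. -/
theorem exists_disjoint_family {α : Type} [DecidableEq α] (k p : ℕ) (R : Finset α)
    (h : k * p ≤ R.card) :
    ∃ P : Fin k → Finset α, (∀ c, P c ⊆ R) ∧ (∀ c, (P c).card = p) ∧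
      ∀ c c', c ≠ c' → Disjoint (P c) (P c') := by
  obtain ⟨f⟩ : Nonempty (Fin k × Fin p ↪ R) :=
    Function.Embedding.nonempty_of_card_le (by simpa using h)
  refine ⟨fun c => univ.image (fun j : Fin p => (f (c, j) : α)), ?_, ?_, ?_⟩
  · intro c a ha
    obtain ⟨j, -, rfl⟩ := Finset.mem_image.mp ha
    exact (f (c, j)).2
  · intro c
    rw [Finset.card_image_of_injective]
    · simp
    · intro j j' e
      have := f.injective (Subtype.ext e)
      exact congrArg Prod.snd this
  · intro c c' hc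
    rw [Finset.disjoint_left]
    intro a ha ha'
    obtain ⟨j, -, rfl⟩ := Finset.mem_image.mp ha
    obtain ⟨j', -, e⟩ := Finset.mem_image.mp ha'
    have := f.injective (Subtype.ext e)
    exact hc (congrArg Prod.fst this).symm

theorem card_sdiff_family {α : Type} [DecidableEq α] {k p : ℕ} (R : Finset α)
    (P : Fin k → Finset α) (hPR : ∀ c, P c ⊆ R) (hc : ∀ c, (P c).card = p)
    (hdisj : ∀ c c', c ≠ c' → Disjoint (P c) (P c')) (c : Fin k) :
    (R \ (univ.erase c).biUnion P).card + (k - 1) * p = R.card := by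
  have h1 : ((univ.erase c).biUnion P).card = (k - 1) * p := by
    rw [Finset.card_biUnion (fun x _ y _ hxy => hdisj x y hxy)]
    simp [hc]
  rw [← h1]
  apply Finset.card_sdiff_add_card_eq_card
  exact Finset.biUnion_subset.mpr fun x _ => hPR x

end Pool.Agent.MP_6c8b06_co

end

section

set_option autoImplicit false

namespace Pool.Agent.MP_6c8b06_co

theorem flip_zero_cons {n : ℕ} (b : Bool) (x : Cube n) :
    flip (0 : Fin (n + 1)) (Fin.cons b x : Cube (n + 1)) = Fin.cons (!b) x := by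
  funext j
  refine Fin.cases ?_ (fun l => ?_) j
  · rw [flip_apply_self]; simp
  · rw [flip_apply_ne (Fin.succ_ne_zero l)]; simp

theorem flip_succ_cons {n : ℕ} (b : Bool) (x : Cube n) (i : Fin n) :
    flip i.succ (Fin.cons b x : Cube (n + 1)) = Fin.cons b (flip i x) := by
  funext j
  refine Fin.cases ?_ (fun l => ?_) j
  · rw [flip_apply_ne (Fin.succ_ne_zero i).symm]; simp
  · by_cases h : l = i
    · subst h
      rw [flip_apply_self]; simp [flip_apply_self]
    · rw [flip_apply_ne (fun e => h (Fin.succ_injective _ e))]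
      simp [flip_apply_ne h]

/-- The inductive invariant: an alpha-labelling of the `(n+1)`-cube whose edges in direction `0`
carry the middle differences. -/
def AlphaInv (n lam N : ℕ) (L : Cube (n + 1) → ℕ) (par : Cube (n + 1) → Bool) : Prop :=
  Function.Injective L ∧ (∀ i x, par (flip i x) = !par x) ∧
    (∀ x, par x = false → L x ≤ lam) ∧
    (∀ x, par x = true → lam < L x ∧ L x ≤ 2 * lam + N) ∧
    (∀ δ, 1 ≤ δ → δ ≤ 2 * lam + N → ∃ x i, L (flip i x) = L x + δ) ∧
    (∀ δ, lam < δ → δ ≤ lam + N → ∃ x, L (flip 0 x) = L x + δ)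

theorem alphaInv_zero :
    AlphaInv 0 0 1 (fun x => if x 0 then 1 else 0) (fun x => x 0) := by
  refine ⟨?_, ?_, ?_, ?_, ?_, ?_⟩
  · intro x y h
    funext j
    have hj : j = 0 := Fin.ext (by omega)
    subst hj
    cases hx : x 0 <;> cases hy : y 0 <;> simp_all
  · intro i x
    have hi : i = 0 := Fin.ext (by omega)
    subst hi
    exact flip_apply_self _ _
  · intro x hx
    simp_all
  · intro x hx
    simp_all
  · intro δ h1 h2
    refine ⟨fun _ => false, 0, ?_⟩
    simp [flip_apply_self]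
    omega
  · intro δ h1 h2
    refine ⟨fun _ => false, ?_⟩
    simp [flip_apply_self]
    omega

theorem alphaInv_succ {n lam N : ℕ} (hN : 1 ≤ N) {L : Cube (n + 1) → ℕ}
    {par : Cube (n + 1) → Bool} (h : AlphaInv n lam N L par) :
    ∃ (L' : Cube (n + 2) → ℕ) (par' : Cube (n + 2) → Bool),
      AlphaInv (n + 1) (2 * lam + N) (2 * N) L' par' := by
  obtain ⟨hinj, hpar, hev, hod, hall, hmid⟩ := h
  let L' : Cube (n + 2) → ℕ := fun z =>
    if z 0 then L (flip 0 (Fin.tail z)) + (lam + N)
    else L (Fin.tail z) + (if par (Fin.tail z) then 2 * lam + 3 * N else 0)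
  let par' : Cube (n + 2) → Bool := fun z => xor (z 0) (par (Fin.tail z))
  have hLt : ∀ x : Cube (n + 1), L' (Fin.cons true x) = L (flip 0 x) + (lam + N) := by
    intro x; simp [L']
  have hLf : ∀ x : Cube (n + 1), L' (Fin.cons false x) =
      L x + (if par x then 2 * lam + 3 * N else 0) := by
    intro x; simp [L']
  have hp : ∀ (b : Bool) (x : Cube (n + 1)), par' (Fin.cons b x) = xor b (par x) := by
    intro b x; simp [par']
  have hcases : ∀ z : Cube (n + 2), ∃ (b : Bool) (x : Cube (n + 1)), z = Fin.cons b x :=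
    fun z => ⟨z 0, Fin.tail z, (Fin.cons_self_tail z).symm⟩
  have hup : ∀ x i δ, 1 ≤ δ → L (flip i x) = L x + δ → par x = false := by
    intro x i δ h1 h2
    by_contra hx
    have hx' : par x = true := by simpa using hx
    have h3 := hev (flip i x) (by rw [hpar, hx']; rfl)
    have h4 := hod x hx'
    omega
  have hmid' : ∀ δ, 2 * lam + N < δ → δ ≤ 2 * lam + N + 2 * N →
      ∃ x, L' (flip 0 x) = L' x + δ := by
    intro δ h1 h2
    by_cases hc : δ ≤ 2 * lam + 2 * N
    · obtain ⟨x, hx⟩ := hmid (δ - (lam + N)) (by omega) (by omega)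
      have hpx := hup x 0 _ (by omega) hx
      refine ⟨Fin.cons false x, ?_⟩
      rw [flip_zero_cons, Bool.not_false, hLt, hLf, hpx, hx]
      simp only [Bool.false_eq_true, if_false]
      omega
    · obtain ⟨x, hx⟩ := hmid (δ - (lam + 2 * N)) (by omega) (by omega)
      have hpx := hup x 0 _ (by omega) hx
      refine ⟨Fin.cons true (flip 0 x), ?_⟩
      rw [flip_zero_cons, Bool.not_true, hLt, hLf, hpar, hpx, flip_flip, hx]
      simp only [Bool.not_false, if_true]
      omega
  have hr : ∀ x, (par x = false ∧ L x ≤ lam ∧ lam < L (flip 0 x) ∧ L (flip 0 x) ≤ 2 * lam + N) ∨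
      (par x = true ∧ lam < L x ∧ L x ≤ 2 * lam + N ∧ L (flip 0 x) ≤ lam) := by
    intro x
    cases hx : par x
    · have := hod (flip 0 x) (by rw [hpar, hx]; rfl)
      exact Or.inl ⟨rfl, hev x hx, this.1, this.2⟩
    · have := hod x hx
      exact Or.inr ⟨rfl, this.1, this.2, hev (flip 0 x) (by rw [hpar, hx]; rfl)⟩
  refine ⟨L', par', ?_, ?_, ?_, ?_, ?_, hmid'⟩
  · intro z w hzw
    obtain ⟨b, x, rfl⟩ := hcases z
    obtain ⟨c, y, rfl⟩ := hcases w
    cases b <;> cases c
    · rw [hLf, hLf] at hzw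
      have : L x = L y := by
        rcases hr x with ⟨hx, e1⟩ | ⟨hx, e1⟩ <;> rcases hr y with ⟨hy, e2⟩ | ⟨hy, e2⟩ <;>
          rw [hx, hy] at hzw <;> simp only [Bool.false_eq_true, if_false, if_true] at hzw <;> omega
      rw [hinj this]
    · rw [hLf, hLt] at hzw
      exfalso
      rcases hr x with ⟨hx, e1⟩ | ⟨hx, e1⟩ <;> rcases hr y with ⟨hy, e2⟩ | ⟨hy, e2⟩ <;>
          rw [hx] at hzw <;> simp only [Bool.false_eq_true, if_false, if_true] at hzw <;> omega
    · rw [hLf, hLt] at hzw
      exfalso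
      rcases hr x with ⟨hx, e1⟩ | ⟨hx, e1⟩ <;> rcases hr y with ⟨hy, e2⟩ | ⟨hy, e2⟩ <;>
          rw [hy] at hzw <;> simp only [Bool.false_eq_true, if_false, if_true] at hzw <;> omega
    · rw [hLt, hLt] at hzw
      have h1 : L (flip 0 x) = L (flip 0 y) := by omega
      have h2 := hinj h1
      have h3 : x = y := by rw [← flip_flip 0 x, h2, flip_flip]
      rw [h3]
  · intro i z
    obtain ⟨b, x, rfl⟩ := hcases z
    refine Fin.cases ?_ (fun l => ?_) i
    · rw [flip_zero_cons, hp, hp]
      cases b <;> cases par x <;> rfl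
    · rw [flip_succ_cons, hp, hp, hpar]
      cases b <;> cases par x <;> rfl
  · intro z hz
    obtain ⟨b, x, rfl⟩ := hcases z
    rw [hp] at hz
    cases b
    · rw [hLf]
      rcases hr x with ⟨hx, e1⟩ | ⟨hx, e1⟩
      · rw [hx]; simp only [Bool.false_eq_true, if_false]; omega
      · rw [hx] at hz; simp at hz
    · rw [hLt]
      rcases hr x with ⟨hx, e1⟩ | ⟨hx, e1⟩
      · rw [hx] at hz; simp at hz
      · omega
  · intro z hz
    obtain ⟨b, x, rfl⟩ := hcases z
    rw [hp] at hz
    cases b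
    · rw [hLf]
      rcases hr x with ⟨hx, e1⟩ | ⟨hx, e1⟩
      · rw [hx] at hz; simp at hz
      · rw [hx]; simp only [if_true]; omega
    · rw [hLt]
      rcases hr x with ⟨hx, e1⟩ | ⟨hx, e1⟩
      · omega
      · rw [hx] at hz; simp at hz
  · intro δ h1 h2
    by_cases hc : δ ≤ 2 * lam + N
    · obtain ⟨x, i, hx⟩ := hall δ h1 hc
      refine ⟨Fin.cons true (flip 0 x), i.succ, ?_⟩
      rw [flip_succ_cons, hLt, hLt, flip_flip, flip_comm, flip_flip, hx]
      omega
    · by_cases hc2 : δ ≤ 2 * lam + N + 2 * N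
      · obtain ⟨x, hx⟩ := hmid' δ (by omega) hc2
        exact ⟨x, 0, hx⟩
      · obtain ⟨x, i, hx⟩ := hall (δ - (2 * lam + 3 * N)) (by omega) (by omega)
        have hpx := hup x i _ (by omega) hx
        refine ⟨Fin.cons false x, i.succ, ?_⟩
        rw [flip_succ_cons, hLf, hLf, hpar, hpx, hx]
        simp only [Bool.not_false, if_true, Bool.false_eq_true, if_false]
        omega

theorem alphaInv_exists (n : ℕ) :
    ∃ (lam : ℕ) (L : Cube (n + 1) → ℕ) (par : Cube (n + 1) → Bool),
      2 * lam = n * 2 ^ n ∧ AlphaInv n lam (2 ^ n) L par := by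
  induction n with
  | zero => exact ⟨0, _, _, by simp, alphaInv_zero⟩
  | succ n ih =>
    obtain ⟨lam, L, par, h1, h2⟩ := ih
    obtain ⟨L', par', h3⟩ := alphaInv_succ Nat.one_le_two_pow h2
    refine ⟨2 * lam + 2 ^ n, L', par', ?_, ?_⟩
    · rw [h1]; ring
    · rw [pow_succ, mul_comm (2 ^ n) 2]; exact h3

/-- An alpha-labelling of the `(n+1)`-cube, which has `e = (n+1) 2^n` edges. -/
theorem alpha_labelling (n : ℕ) :
    ∃ (lam : ℕ) (L : Cube (n + 1) → ℕ) (par : Cube (n + 1) → Bool),
      Function.Injective L ∧ (∀ i x, par (flip i x) = !par x) ∧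
      (∀ x, par x = false → L x ≤ lam) ∧
      (∀ x, par x = true → lam < L x ∧ L x ≤ (n + 1) * 2 ^ n) ∧ lam < (n + 1) * 2 ^ n ∧
      (∀ δ, 1 ≤ δ → δ ≤ (n + 1) * 2 ^ n →
        ∃! p : Cube (n + 1) × Fin (n + 1), L (flip p.2 p.1) = L p.1 + δ) := by
  obtain ⟨lam, L, par, h1, hinj, hpar, hev, hod, hall, -⟩ := alphaInv_exists n
  have he : 2 * lam + 2 ^ n = (n + 1) * 2 ^ n := by rw [h1]; ring
  have hpos : 1 ≤ 2 ^ n := Nat.one_le_two_pow
  rw [he] at hod hall
  refine ⟨lam, L, par, hinj, hpar, hev, hod, by omega, ?_⟩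
  set e := (n + 1) * 2 ^ n with he'
  let Δ : Cube (n + 1) × Fin (n + 1) → ℤ := fun p => (L (flip p.2 p.1) : ℤ) - L p.1
  let T : Finset ℤ := (Finset.Icc (-(e : ℤ)) e).erase 0
  have hT : T.card = 2 * e := by
    rw [Finset.card_erase_of_mem (by simp), Int.card_Icc]
    omega
  have hsurj : Set.SurjOn Δ (Finset.univ : Finset (Cube (n + 1) × Fin (n + 1))) T := by
    intro t ht
    simp only [T, Finset.coe_erase, Finset.coe_Icc, Set.mem_sdiff, Set.mem_Icc,
      Set.mem_singleton_iff] at ht
    by_cases hs : 0 < t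
    · obtain ⟨x, i, hx⟩ := hall t.toNat (by omega) (by omega)
      refine ⟨(x, i), by simp, ?_⟩
      simp only [Δ, hx]
      omega
    · obtain ⟨x, i, hx⟩ := hall (-t).toNat (by omega) (by omega)
      refine ⟨(flip i x, i), by simp, ?_⟩
      simp only [Δ, flip_flip, hx]
      omega
  have hle : ∀ x, L x ≤ e := by
    intro x
    cases hx : par x
    · have := hev x hx; omega
    · exact (hod x hx).2
  have hmaps : Set.MapsTo Δ (Finset.univ : Finset (Cube (n + 1) × Fin (n + 1))) T := by
    intro p _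
    simp only [T, Finset.coe_erase, Finset.coe_Icc, Set.mem_sdiff, Set.mem_Icc,
      Set.mem_singleton_iff, Δ]
    have a1 := hle p.1
    have a2 := hle (flip p.2 p.1)
    have a3 : L (flip p.2 p.1) ≠ L p.1 := fun h => flip_ne _ _ (hinj h)
    omega
  have hinjΔ : Set.InjOn Δ (Finset.univ : Finset (Cube (n + 1) × Fin (n + 1))) := by
    apply Finset.injOn_of_surjOn_of_card_le Δ hmaps hsurj
    rw [hT, he']
    simp [pow_succ]
    ring_nf
    rfl
  intro δ hδ1 hδ2
  obtain ⟨x, i, hx⟩ := hall δ hδ1 hδ2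
  refine ⟨(x, i), hx, ?_⟩
  intro p hp
  apply hinjΔ (by simp) (by simp)
  simp only [Δ, hp, hx]
  omega

end Pool.Agent.MP_6c8b06_co

end

section

set_option autoImplicit false

namespace Pool.Agent.MP_6c8b06_co

theorem natCast_eq_of_abs_lt {m a b : ℕ} (h : (a : ZMod m) = (b : ZMod m))
    (h2 : |(b : ℤ) - a| < m) : a = b :=
  Nat.ModEq.eq_of_abs_lt ((ZMod.natCast_eq_natCast_iff a b m).mp h) h2

theorem dec_complete_odd (n : ℕ) :
    Dec (n + 1) (fun u v : ZMod (2 * ((n + 1) * 2 ^ n) + 1) => u ≠ v) := by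
  obtain ⟨lam, L, par, hinj, hpar, hev, hod, hlam, huniq⟩ := alpha_labelling n
  set e := (n + 1) * 2 ^ n with he
  have hle : ∀ x, L x ≤ e := by
    intro x
    cases hx : par x
    · have := hev x hx; omega
    · exact (hod x hx).2
  let φ : ZMod (2 * e + 1) → Cube (n + 1) → ZMod (2 * e + 1) := fun c x => c + (L x : ℕ)
  have hφ : ∀ c, Function.Injective (φ c) := by
    intro c x y hxy
    have h1 : ((L x : ℕ) : ZMod (2 * e + 1)) = (L y : ℕ) := add_left_cancel hxy
    have a1 := hle x
    have a2 := hle y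
    exact hinj (natCast_eq_of_abs_lt h1 (by rw [abs_lt]; push_cast; omega))
  have key : ∀ (u v : ZMod (2 * e + 1)) (δ : ℕ), 1 ≤ δ → δ ≤ e → v = u + δ →
      ∃! c, Covers (φ c) u v := by
    intro u v δ h1 h2 hv
    obtain ⟨⟨x, i⟩, hx, hu⟩ := huniq δ h1 h2
    refine ⟨u - (L x : ℕ), (covers_iff _ _ _).mpr ⟨x, i, by simp [φ], ?_⟩, ?_⟩
    · simp only [φ]
      simp only at hx
      rw [hx, hv]
      push_cast
      ring
    · intro c hc
      obtain ⟨x', i', e1, e2⟩ := (covers_iff _ _ _).mp hc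
      simp only [φ] at e1 e2
      have h3 : ((L (flip i' x') : ℕ) : ZMod (2 * e + 1)) = ((L x' + δ : ℕ) : ZMod (2 * e + 1)) := by
        push_cast
        rw [hv, ← e1] at e2
        linear_combination e2
      have a1 := hle x'
      have a2 := hle (flip i' x')
      have h4 := natCast_eq_of_abs_lt h3 (by rw [abs_lt]; push_cast; omega)
      have h5 := hu (x', i') h4
      have h6 : x' = x := congrArg Prod.fst h5
      rw [← h6, ← e1]
      ring
  refine ⟨ZMod (2 * e + 1), inferInstance, φ, hφ, ?_, ?_⟩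
  · intro c u v hc
    obtain ⟨x, i, rfl, rfl⟩ := (covers_iff _ _ _).mp hc
    exact fun h => flip_ne i x (hφ c h).symm
  · intro u v huv
    have ht : ((v - u).val : ZMod (2 * e + 1)) = v - u := ZMod.natCast_zmod_val _
    have hlt : (v - u).val < 2 * e + 1 := ZMod.val_lt _
    have hpos : (v - u).val ≠ 0 := by
      intro h
      rw [ZMod.val_eq_zero, sub_eq_zero] at h
      exact huv h.symm
    by_cases hc : (v - u).val ≤ e
    · exact key u v _ (by omega) hc (by rw [ht]; ring)
    · have h1 : u = v + ((2 * e + 1 - (v - u).val : ℕ) : ZMod (2 * e + 1)) := by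
        rw [Nat.cast_sub hlt.le, ht, ZMod.natCast_self]
        ring
      obtain ⟨c, hc1, hc2⟩ := key v u _ (by omega) (by omega) h1
      exact ⟨c, hc1.symm, fun c' hc' => hc2 c' hc'.symm⟩

theorem dec_bip_base (n : ℕ) :
    Dec (n + 1) (fun u v : ZMod ((n + 1) * 2 ^ n) × Bool => u.2 ≠ v.2) := by
  obtain ⟨lam, L, par, hinj, hpar, hev, hod, hlam, huniq⟩ := alpha_labelling n
  set e := (n + 1) * 2 ^ n with he
  have : NeZero e := ⟨by omega⟩
  let φ : ZMod e → Cube (n + 1) → ZMod e × Bool := fun c x => (c + (L x : ℕ), par x)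
  have hφ : ∀ c, Function.Injective (φ c) := by
    intro c x y hxy
    have h0 : par x = par y := congrArg Prod.snd hxy
    have h1 : ((L x : ℕ) : ZMod e) = (L y : ℕ) := add_left_cancel (congrArg Prod.fst hxy)
    apply hinj
    cases hx : par x
    · have a1 := hev x hx
      have a2 := hev y (h0 ▸ hx)
      exact natCast_eq_of_abs_lt h1 (by rw [abs_lt]; omega)
    · have a1 := hod x hx
      have a2 := hod y (h0 ▸ hx)
      exact natCast_eq_of_abs_lt h1 (by rw [abs_lt]; omega)
  have key : ∀ a b : ZMod e, ∃! c, Covers (φ c) (a, false) (b, true) := by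
    intro a b
    obtain ⟨δ, h1, h2, hv⟩ : ∃ δ : ℕ, 1 ≤ δ ∧ δ ≤ e ∧ b = a + δ := by
      have ht : ((b - a).val : ZMod e) = b - a := ZMod.natCast_zmod_val _
      have hlt : (b - a).val < e := ZMod.val_lt _
      by_cases h : (b - a).val = 0
      · refine ⟨e, by omega, le_rfl, ?_⟩
        rw [ZMod.val_eq_zero, sub_eq_zero] at h
        rw [ZMod.natCast_self, h, add_zero]
      · exact ⟨(b - a).val, by omega, hlt.le, by rw [ht]; ring⟩
    obtain ⟨⟨x, i⟩, hx, hu⟩ := huniq δ h1 h2
    simp only at hx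
    have hpx : par x = false := by
      by_contra hc
      have hc' : par x = true := by simpa using hc
      have a1 := hod x hc'
      have a2 := hev (flip i x) (by rw [hpar, hc']; rfl)
      omega
    refine ⟨a - (L x : ℕ), (covers_iff _ _ _).mpr ⟨x, i, by simp [φ, hpx], ?_⟩, ?_⟩
    · simp only [φ]
      rw [hx, hv, hpar, hpx]
      push_cast
      simp only [Bool.not_false, Prod.mk.injEq, and_true]
      ring
    · intro c hc
      obtain ⟨x', i', e1, e2⟩ := (covers_iff _ _ _).mp hc
      simp only [φ, Prod.mk.injEq] at e1 e2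
      have h3 : ((L (flip i' x') : ℕ) : ZMod e) = ((L x' + δ : ℕ) : ZMod e) := by
        push_cast
        have e3 := e2.1
        rw [hv, ← e1.1] at e3
        linear_combination e3
      have a1 := hev x' e1.2
      have a2 := hod (flip i' x') e2.2
      have h4 := natCast_eq_of_abs_lt h3 (by rw [abs_lt]; push_cast; omega)
      have h5 := hu (x', i') h4
      have h6 : x' = x := congrArg Prod.fst h5
      rw [← h6, ← e1.1]
      ring
  refine ⟨ZMod e, inferInstance, φ, hφ, ?_, ?_⟩
  · intro c u v hc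
    obtain ⟨x, i, rfl, rfl⟩ := (covers_iff _ _ _).mp hc
    simp only [φ, hpar]
    cases par x <;> simp
  · rintro ⟨a, s⟩ ⟨b, t⟩ huv
    cases s <;> cases t
    · exact (huv rfl).elim
    · exact key a b
    · obtain ⟨c, hc1, hc2⟩ := key b a
      exact ⟨c, hc1.symm, fun c' hc' => hc2 c' hc'.symm⟩
    · exact (huv rfl).elim

end Pool.Agent.MP_6c8b06_co

end
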